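import Mathlib

/-! # Quadratic forms over `ℂ[x]` with a point of rank one (after helper79, Q79.C3.An, with any number of variables) -/

set_option autoImplicit false

namespace Pool.Agent.H53.CL

open MvPolynomial

noncomputable section

abbrev Rn (n : ℕ) := MvPolynomial (Fin n) ℂ

variable {n : ℕ}

theorem linear_dvd {a w : (Rn n)} (ha : a.IsHomogeneous 1) (ha0 : a ≠ 0) (h : w ∣ a) :
    (∃ c : ℂ, w = C c) ∨ ∃ c : ℂ, w = C c * a := by
  obtain ⟨z, hz⟩ := h
  have hw0 : w ≠ 0 := by
    rintro rfl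
    exact ha0 (by rw [hz, zero_mul])
  have hz0 : z ≠ 0 := by
    rintro rfl
    exact ha0 (by rw [hz, mul_zero])
  have h1 : w.totalDegree + z.totalDegree = 1 := by
    rw [← totalDegree_mul_of_isDomain hw0 hz0, ← hz, ha.totalDegree ha0]
  rcases Nat.eq_zero_or_pos w.totalDegree with h2 | h2
  · left
    exact ⟨_, totalDegree_eq_zero_iff_eq_C.1 h2⟩
  · right
    have h3 : z.totalDegree = 0 := by omega
    obtain ⟨c, rfl⟩ : ∃ c, z = C c := ⟨_, totalDegree_eq_zero_iff_eq_C.1 h3⟩
    have hc : c ≠ 0 := by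
      rintro rfl
      exact hz0 (by rw [C_0])
    refine ⟨c⁻¹, ?_⟩
    rw [hz, mul_left_comm, ← C_mul, inv_mul_cancel₀ hc, C_1, mul_one]

theorem aeval_smul_form' {a : (Rn n)} (ha : a.IsHomogeneous 1) : eval 0 a = 0 := by
  rw [eval_zero, constantCoeff_eq]
  exact ha.coeff_eq_zero (by simp)

theorem eval_zero_of_linear {a : (Rn n)} (ha : a.IsHomogeneous 1) : eval 0 a = 0 := by
  have h1 := aeval_smul_form' ha
  rw [h1]

/-- binary quadratic forms with linear coefficients and without constant zeros -/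
theorem binary {a b c : (Rn n)} (ha : a.IsHomogeneous 1) (hb : b.IsHomogeneous 1)
    (hc : c.IsHomogeneous 1)
    (h : ∀ p q : ℂ, C (p ^ 2) * a + C (2 * p * q) * b + C (q ^ 2) * c = 0 → p = 0 ∧ q = 0)
    (W V : (Rn n)) (hW : a * W ^ 2 + 2 * b * W * V + c * V ^ 2 = 0) : W = 0 ∧ V = 0 := by
  have ha0 : a ≠ 0 := by
    rintro rfl
    have := (h 1 0 (by simp)).1
    exact one_ne_zero this
  have hc0 : c ≠ 0 := by
    rintro rfl
    have := (h 0 1 (by simp)).2
    exact one_ne_zero this
  by_contra hcon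
  have hW0 : W ≠ 0 := by
    rintro rfl
    have h1 : c * V ^ 2 = 0 := by
      have : (0 : (Rn n)) ^ 2 = 0 := by ring
      linear_combination hW
    rcases mul_eq_zero.1 h1 with h2 | h2
    · exact hc0 h2
    · exact hcon ⟨rfl, by simpa using h2⟩
  obtain ⟨w, v, g, hrel, hgw, hgv⟩ :=
    UniqueFactorizationMonoid.exists_reduced_factors W hW0 V
  have hg0 : g ≠ 0 := by
    rintro rfl
    exact hW0 (by rw [← hgw, zero_mul])
  have hw0 : w ≠ 0 := by
    rintro rfl
    exact hW0 (by rw [← hgw, mul_zero])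
  have hwv : a * w ^ 2 + 2 * b * w * v + c * v ^ 2 = 0 := by
    have h1 : g ^ 2 * (a * w ^ 2 + 2 * b * w * v + c * v ^ 2) = 0 := by
      rw [← hW, ← hgw, ← hgv]
      ring
    exact (mul_eq_zero.1 h1).resolve_left (pow_ne_zero 2 hg0)
  have hv0 : v ≠ 0 := by
    rintro rfl
    have h1 : a * w ^ 2 = 0 := by linear_combination hwv
    exact (mul_ne_zero ha0 (pow_ne_zero 2 hw0)) h1
  have hva : v ∣ a := by
    have h1 : v ∣ a * w ^ 2 := ⟨-(2 * b * w + c * v), by linear_combination hwv⟩
    exact (hrel.symm.pow_right).dvd_of_dvd_mul_right h1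
  have hwc : w ∣ c := by
    have h1 : w ∣ c * v ^ 2 := ⟨-(a * w + 2 * b * v), by linear_combination hwv⟩
    exact (hrel.pow_right).dvd_of_dvd_mul_right h1
  have ea : eval 0 a = 0 := eval_zero_of_linear ha
  have eb : eval 0 b = 0 := eval_zero_of_linear hb
  have ec : eval 0 c = 0 := eval_zero_of_linear hc
  rcases linear_dvd ha ha0 hva with ⟨q, rfl⟩ | ⟨q, rfl⟩
  · rcases linear_dvd hc hc0 hwc with ⟨p, rfl⟩ | ⟨p, rfl⟩
    · have h1 := h p q (by
        rw [← hwv]
        simp only [C_mul, C_pow, map_ofNat]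
        ring)
      exact hw0 (by rw [h1.1, C_0])
    · have h1 : c * (C (p ^ 2) * a * c + C (2 * p * q) * b + C (q ^ 2)) = 0 := by
        rw [← hwv]
        simp only [C_mul, C_pow, map_ofNat]
        ring
      have h2 := (mul_eq_zero.1 h1).resolve_left hc0
      have h3 := congrArg (eval 0) h2
      simp only [map_add, map_mul, eval_C, ea, eb, ec, mul_zero, zero_add, map_zero] at h3
      have h4 : q = 0 := by simpa using h3
      exact hv0 (by rw [h4, C_0])
  · rcases linear_dvd hc hc0 hwc with ⟨p, rfl⟩ | ⟨p, rfl⟩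
    · have h1 : a * (C (p ^ 2) + C (2 * p * q) * b + C (q ^ 2) * a * c) = 0 := by
        rw [← hwv]
        simp only [C_mul, C_pow, map_ofNat]
        ring
      have h2 := (mul_eq_zero.1 h1).resolve_left ha0
      have h3 := congrArg (eval 0) h2
      simp only [map_add, map_mul, eval_C, ea, eb, ec, mul_zero, add_zero, map_zero] at h3
      have h4 : p = 0 := by simpa using h3
      exact hw0 (by rw [h4, C_0])
    · have h1 : (a * c) * (C (q ^ 2) * a + C (2 * q * p) * b + C (p ^ 2) * c) = 0 := by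
        rw [← hwv]
        simp only [C_mul, C_pow, map_ofNat]
        ring
      have h2 := (mul_eq_zero.1 h1).resolve_left (mul_ne_zero ha0 hc0)
      have h3 := h q p h2
      exact hw0 (by rw [h3.2, C_0, zero_mul])

/-- a basis of the kernel -/
theorem param (k : Fin 3) (μ : Fin 3 → ℂ) (hk : μ k ≠ 0) (v : Fin 3 → (Rn n))
    (hv : ∑ i, C (μ i) * v i = 0) :
    ∃ (P Q : Fin 3 → ℂ) (W V : (Rn n)), ∑ i, μ i * P i = 0 ∧ ∑ i, μ i * Q i = 0 ∧
      (∀ p q : ℂ, (fun i => p * P i + q * Q i) = 0 → p = 0 ∧ q = 0) ∧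
      (∀ i, v i = C (P i) * W + C (Q i) * V) := by
  have key : ∀ i j l : Fin 3, μ i ≠ 0 → C (μ i) * v i + C (μ j) * v j + C (μ l) * v l = 0 →
      v i = C (-(μ j) / μ i) * v j + C (-(μ l) / μ i) * v l := by
    intro i j l hi h
    have h1 : (C (μ i) : (Rn n)) ≠ 0 := by
      rw [Ne, C_eq_zero]
      exact hi
    apply mul_left_cancel₀ h1
    rw [mul_add, ← mul_assoc, ← mul_assoc, ← C_mul, ← C_mul, mul_div_cancel₀ _ hi,
      mul_div_cancel₀ _ hi, C_neg, C_neg]
    linear_combination h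
  rw [Fin.sum_univ_three] at hv
  fin_cases k
  · have hk' : μ 0 ≠ 0 := hk
    refine ⟨![-(μ 1) / μ 0, 1, 0], ![-(μ 2) / μ 0, 0, 1], v 1, v 2, ?_, ?_, ?_, ?_⟩
    · simp [Fin.sum_univ_three]
      field_simp
      ring
    · simp [Fin.sum_univ_three]
      field_simp
      ring
    · intro p q h
      have h1 := congrFun h 1
      have h2 := congrFun h 2
      simp at h1 h2
      exact ⟨h1, h2⟩
    · intro i
      fin_cases i
      · exact key 0 1 2 hk' hv
      · simp
      · simp
  · have hk' : μ 1 ≠ 0 := hk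
    refine ⟨![1, -(μ 0) / μ 1, 0], ![0, -(μ 2) / μ 1, 1], v 0, v 2, ?_, ?_, ?_, ?_⟩
    · simp [Fin.sum_univ_three]
      field_simp
      ring
    · simp [Fin.sum_univ_three]
      field_simp
      ring
    · intro p q h
      have h1 := congrFun h 0
      have h2 := congrFun h 2
      simp at h1 h2
      exact ⟨h1, h2⟩
    · intro i
      fin_cases i
      · simp
      · exact key 1 0 2 hk' (by linear_combination hv)
      · simp
  · have hk' : μ 2 ≠ 0 := hk
    refine ⟨![1, 0, -(μ 0) / μ 2], ![0, 1, -(μ 1) / μ 2], v 0, v 1, ?_, ?_, ?_, ?_⟩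
    · simp [Fin.sum_univ_three]
      field_simp
      ring
    · simp [Fin.sum_univ_three]
      field_simp
      ring
    · intro p q h
      have h1 := congrFun h 0
      have h2 := congrFun h 1
      simp at h1 h2
      exact ⟨h1, h2⟩
    · intro i
      fin_cases i
      · simp
      · simp
      · exact key 2 0 1 hk' (by linear_combination hv)

/-- the algebraic step -/
theorem kernel_step (k : Fin 3) (μ : Fin 3 → ℂ) (hk : μ k ≠ 0) (v : Fin 3 → (Rn n))
    (hv : ∑ i, C (μ i) * v i = 0) (B : Fin 3 → Fin 3 → (Rn n)) (hB : ∀ i j, (B i j).IsHomogeneous 1)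
    (hBs : ∀ i j, B i j = B j i)
    (hcond : ∀ u : Fin 3 → ℂ, ∑ i, μ i * u i = 0 → ∑ i, ∑ j, C (u i) * B i j * C (u j) = 0 →
      u = 0)
    (h : ∑ i, ∑ j, v i * B i j * v j = 0) : v = 0 := by
  obtain ⟨P, Q, W, V, hP, hQ, hind, hvi⟩ := param k μ hk v hv
  have hlin : ∀ P Q : Fin 3 → ℂ, (∑ i, ∑ j, C (P i) * B i j * C (Q j)).IsHomogeneous 1 := by
    intro P Q
    refine IsHomogeneous.sum _ _ _ fun i _ => IsHomogeneous.sum _ _ _ fun j _ => ?_
    have := ((isHomogeneous_C (Fin n) (P i)).mul (hB i j)).mul (isHomogeneous_C (Fin n) (Q j))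
    exact this
  have hsym : ∑ i, ∑ j, C (Q i) * B i j * C (P j) = ∑ i, ∑ j, C (P i) * B i j * C (Q j) := by
    rw [Finset.sum_comm]
    refine Finset.sum_congr rfl fun i _ => Finset.sum_congr rfl fun j _ => ?_
    rw [hBs j i]
    ring
  have key : ∀ x y : (Rn n), ∑ i, ∑ j, (C (P i) * x + C (Q i) * y) * B i j * (C (P j) * x + C (Q j) * y)
      = (∑ i, ∑ j, C (P i) * B i j * C (P j)) * x ^ 2 +
        2 * (∑ i, ∑ j, C (P i) * B i j * C (Q j)) * x * y +
        (∑ i, ∑ j, C (Q i) * B i j * C (Q j)) * y ^ 2 := by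
    intro x y
    have h1 : 2 * (∑ i, ∑ j, C (P i) * B i j * C (Q j)) * x * y =
        (∑ i, ∑ j, C (P i) * B i j * C (Q j)) * (x * y) +
          (∑ i, ∑ j, C (Q i) * B i j * C (P j)) * (x * y) := by
      rw [hsym]
      ring
    rw [h1]
    simp only [Finset.sum_mul]
    simp only [← Finset.sum_add_distrib]
    refine Finset.sum_congr rfl fun i _ => Finset.sum_congr rfl fun j _ => ?_
    ring
  have hW := key W V
  have h2 : ∑ i, ∑ j, (C (P i) * W + C (Q i) * V) * B i j * (C (P j) * W + C (Q j) * V) = 0 := by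
    rw [← h]
    refine Finset.sum_congr rfl fun i _ => Finset.sum_congr rfl fun j _ => ?_
    rw [hvi i, hvi j]
  rw [h2] at hW
  obtain ⟨hW0, hV0⟩ := binary (hlin P P) (hlin P Q) (hlin Q Q) (fun p q hpq => by
    apply hind
    apply hcond
    · simp only [mul_add, Finset.sum_add_distrib]
      have e1 : ∑ i, μ i * (p * P i) = p * ∑ i, μ i * P i := by
        rw [Finset.mul_sum]
        exact Finset.sum_congr rfl fun i _ => by ring
      have e2 : ∑ i, μ i * (q * Q i) = q * ∑ i, μ i * Q i := by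
        rw [Finset.mul_sum]
        exact Finset.sum_congr rfl fun i _ => by ring
      rw [e1, e2, hP, hQ, mul_zero, mul_zero, add_zero]
    · have h3 := key (C p) (C q)
      have h4 : ∑ i, ∑ j, C (p * P i + q * Q i) * B i j * C (p * P j + q * Q j) =
          ∑ i, ∑ j, (C (P i) * C p + C (Q i) * C q) * B i j * (C (P j) * C p + C (Q j) * C q) := by
        refine Finset.sum_congr rfl fun i _ => Finset.sum_congr rfl fun j _ => ?_
        simp only [C_add, C_mul]
        ring
      rw [h4, h3, ← hpq]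
      simp only [C_mul, C_pow, map_ofNat]
      ring) W V hW.symm
  funext i
  rw [hvi i, hW0, hV0]
  simp

end

end Pool.Agent.H53.CL
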