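import Pool.Agent.H53.CL.An

/-! # Project C3, job AN, second part -/

set_option autoImplicit false

namespace Pool.Agent.H53.CL

open MvPolynomial

noncomputable section

variable {n : ℕ}

/-- the expansion at `η` -/
def phi (η : Fin n → ℂ) : (Rn n) →ₐ[ℂ] Polynomial (Rn n) :=
  aeval fun l => Polynomial.C (C (η l)) + Polynomial.X * Polynomial.C (X l)

theorem phi_injective (η : Fin n → ℂ) : Function.Injective (phi η) := by
  let back : Polynomial (Rn n) →ₐ[ℂ] (Rn n) :=
    (aeval (fun l => X l - C (η l) : Fin n → (Rn n))).comp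
      ((Polynomial.aeval (1 : (Rn n))).restrictScalars ℂ)
  have h : back.comp (phi η) = AlgHom.id ℂ (Rn n) := by
    apply algHom_ext
    intro l
    simp only [back, phi, AlgHom.comp_apply, aeval_X, AlgHom.id_apply]
    change (aeval fun l => X l - C (η l)) (Polynomial.aeval (1 : (Rn n))
      (Polynomial.C (C (η l)) + Polynomial.X * Polynomial.C (X l))) = X l
    rw [map_add, map_mul, Polynomial.aeval_C, Polynomial.aeval_X, Polynomial.aeval_C]
    simp
  intro x y hxy
  have h1 := congrArg back hxy
  have h2 : ∀ z, back (phi η z) = z := fun z => by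
    have := AlgHom.congr_fun h z
    exact this
  rwa [h2, h2] at h1

theorem phi_C (η : Fin n → ℂ) (a : ℂ) : phi η (C a) = Polynomial.C (C a) := by
  unfold phi
  rw [aeval_C]
  rfl

theorem phi_coeff_zero (η : Fin n → ℂ) (p : (Rn n)) : (phi η p).coeff 0 = C (eval η p) := by
  induction p using MvPolynomial.induction_on with
  | C a => rw [phi_C, Polynomial.coeff_C_zero, eval_C]
  | add f g hf hg => rw [map_add, Polynomial.coeff_add, hf, hg, map_add, C_add]
  | mul_X f l hf =>
    rw [map_mul, Polynomial.mul_coeff_zero, hf, map_mul, C_mul, eval_X]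
    congr 1
    unfold phi
    rw [aeval_X, Polynomial.coeff_add, Polynomial.coeff_C_zero, Polynomial.coeff_X_mul_zero,
      add_zero]

theorem phi_coeff_one (η : Fin n → ℂ) (p : (Rn n)) :
    (phi η p).coeff 1 = ∑ l, C (eval η (pderiv l p)) * X l := by
  induction p using MvPolynomial.induction_on with
  | C a =>
    rw [phi_C, Polynomial.coeff_C_succ]
    simp
  | add f g hf hg =>
    rw [map_add, Polynomial.coeff_add, hf, hg, ← Finset.sum_add_distrib]
    refine Finset.sum_congr rfl fun l _ => ?_
    rw [map_add, map_add, C_add, add_mul]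
  | mul_X f i hf =>
    have h1 : (phi η (X i)).coeff 1 = X i := by
      unfold phi
      rw [aeval_X, Polynomial.coeff_add, Polynomial.coeff_C_succ, zero_add,
        Polynomial.coeff_X_mul, Polynomial.coeff_C_zero]
    rw [map_mul, Polynomial.mul_coeff_one, phi_coeff_zero, phi_coeff_zero, hf, h1, eval_X,
      Finset.sum_mul]
    have h2 : ∀ l, C (eval η (pderiv l (f * X i))) * X l =
        C (eval η (pderiv l f)) * X l * C (η i) +
          (if l = i then C (eval η f) * (X i : (Rn n)) else 0) := by
      intro l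
      rw [Derivation.leibniz, smul_eq_mul, smul_eq_mul, map_add, map_mul, map_mul, eval_X, C_add,
        C_mul, C_mul]
      by_cases hl : l = i
      · subst hl
        rw [pderiv_X_self, map_one, C_1, if_pos rfl]
        ring
      · rw [pderiv_X_of_ne (Ne.symm hl), map_zero, C_0, if_neg hl]
        ring
    rw [Finset.sum_congr rfl fun l _ => h2 l, Finset.sum_add_distrib, Finset.sum_ite_eq',
      if_pos (Finset.mem_univ _)]
    ring

/-- division by the highest power of `T` -/
theorem strip {R : Type} [CommRing R] [IsDomain R] (v : Fin 3 → Polynomial R) (hv : v ≠ 0) :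
    ∃ (m : ℕ) (w : Fin 3 → Polynomial R), (∀ i, v i = Polynomial.X ^ m * w i) ∧
      ∃ i, (w i).coeff 0 ≠ 0 := by
  obtain ⟨i0, hi0⟩ : ∃ i, v i ≠ 0 := by
    by_contra h
    push Not at h
    exact hv (funext h)
  induction hn : (v i0).natDegree using Nat.strong_induction_on generalizing v with
  | _ n ih =>
    by_cases h : ∃ i, (v i).coeff 0 ≠ 0
    · exact ⟨0, v, fun i => by rw [pow_zero, one_mul], h⟩
    · push Not at h
      have h1 : ∀ i, ∃ w, v i = Polynomial.X * w := fun i => Polynomial.X_dvd_iff.2 (h i)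
      choose w hw using h1
      have hw0 : w i0 ≠ 0 := by
        intro h2
        apply hi0
        rw [hw, h2, mul_zero]
      have hdeg : (v i0).natDegree = (w i0).natDegree + 1 := by
        rw [hw i0, Polynomial.natDegree_X_mul hw0]
      obtain ⟨m, u, hu, hu0⟩ := ih (w i0).natDegree (by omega) w (fun h2 => hw0 (by rw [h2]; rfl))
        hw0 rfl
      refine ⟨m + 1, u, fun i => ?_, hu0⟩
      rw [hw, hu, pow_succ']
      ring

/-- a symmetric matrix of polynomials whose value at `η` has rank one, and whose derivatives at `η` do not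
vanish on the kernel, has no isotropic vector -/
theorem an (A : Matrix (Fin 3) (Fin 3) (MvPolynomial (Fin n) ℂ)) (hA : A.IsSymm)
    (η : Fin n → ℂ) (hne : ∃ i j, eval η (A i j) ≠ 0)
    (hmin : ∀ i j k l : Fin 3, eval η (A i k) * eval η (A j l) = eval η (A i l) * eval η (A j k))
    (hder : ∀ u : Fin 3 → ℂ, u ≠ 0 → (∀ i, ∑ j, eval η (A i j) * u j = 0) →
      ∃ l : Fin n, eval η (pderiv l (∑ i, ∑ j, C (u i) * A i j * C (u j))) ≠ 0)
    (V : Fin 3 → MvPolynomial (Fin n) ℂ) (hV : ∑ i, ∑ j, V i * A i j * V j = 0) : V = 0 := by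
  classical
  by_contra hV0
  have hAs : ∀ i j, A i j = A j i := fun i j => hA.apply j i
  -- a diagonal entry
  obtain ⟨k, hk⟩ : ∃ k, eval η (A k k) ≠ 0 := by
    obtain ⟨i, j, hij⟩ := hne
    refine ⟨i, fun h => hij ?_⟩
    have h1 := hmin i j i j
    rw [h, zero_mul, hAs j i] at h1
    have h2 : eval η (A i j) * eval η (A i j) = 0 := h1.symm
    exact mul_self_eq_zero.1 h2
  set μ : Fin 3 → ℂ := fun i => eval η (A k i) with hμ
  have hμk : μ k ≠ 0 := hk
  have hμμ : ∀ i j, μ i * μ j = μ k * eval η (A i j) := by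
    intro i j
    have h1 := hmin k i k j
    rw [hμ]
    simp only
    rw [h1, hAs i k]
    ring
  -- the expansion
  set v : Fin 3 → Polynomial (Rn n) := fun i => phi η (V i) with hv
  have hv0 : v ≠ 0 := by
    intro h
    apply hV0
    funext i
    apply phi_injective η
    have := congrFun h i
    rw [hv] at this
    simp only [Pi.zero_apply] at this
    rw [this, Pi.zero_apply, map_zero]
  obtain ⟨m, w, hw, i1, hi1⟩ := strip v hv0
  have hq : ∑ i, ∑ j, w i * phi η (A i j) * w j = 0 := by
    have h1 : (Polynomial.X ^ (2 * m) : Polynomial (Rn n)) *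
        ∑ i, ∑ j, w i * phi η (A i j) * w j = 0 := by
      have h2 := congrArg (phi η) hV
      rw [map_zero, map_sum] at h2
      rw [← h2, Finset.mul_sum]
      refine Finset.sum_congr rfl fun i _ => ?_
      rw [map_sum, Finset.mul_sum]
      refine Finset.sum_congr rfl fun j _ => ?_
      have h3 : phi η (V i) = Polynomial.X ^ m * w i := hw i
      have h4 : phi η (V j) = Polynomial.X ^ m * w j := hw j
      rw [map_mul, map_mul, h3, h4]
      ring
    exact (mul_eq_zero.1 h1).resolve_left (pow_ne_zero _ Polynomial.X_ne_zero)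
  set w0 : Fin 3 → (Rn n) := fun i => (w i).coeff 0 with hw0
  set w1 : Fin 3 → (Rn n) := fun i => (w i).coeff 1 with hw1
  have ha : ∀ i j, C (μ k) * C (eval η (A i j)) = (C (μ i) * C (μ j) : (Rn n)) := by
    intro i j
    rw [← C_mul, ← C_mul, hμμ]
  have hCk : (C (μ k) : (Rn n)) ≠ 0 := by
    rw [Ne, C_eq_zero]
    exact hμk
  -- coefficient zero
  have hlin : ∑ i, C (μ i) * w0 i = 0 := by
    have h1 := congrArg (fun p => Polynomial.coeff p 0) hq
    simp only [Polynomial.finsetSum_coeff, Polynomial.mul_coeff_zero, Polynomial.coeff_zero,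
      phi_coeff_zero] at h1
    have h2 : (∑ i, C (μ i) * w0 i) * (∑ i, C (μ i) * w0 i) = 0 := by
      rw [Finset.sum_mul_sum]
      have h3 : C (μ k) * ∑ i, ∑ j, (w i).coeff 0 * C (eval η (A i j)) * (w j).coeff 0 = 0 := by
        rw [h1, mul_zero]
      rw [← h3, Finset.mul_sum]
      refine Finset.sum_congr rfl fun i _ => ?_
      rw [Finset.mul_sum]
      refine Finset.sum_congr rfl fun j _ => ?_
      have h4 := ha i j
      change C (μ i) * (w i).coeff 0 * (C (μ j) * (w j).coeff 0) = _
      linear_combination (-(w i).coeff 0 * (w j).coeff 0) * h4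
    exact mul_self_eq_zero.1 h2
  -- coefficient one
  set B : Fin 3 → Fin 3 → (Rn n) := fun i j => (phi η (A i j)).coeff 1 with hB
  have hquad : ∑ i, ∑ j, w0 i * B i j * w0 j = 0 := by
    have h1 := congrArg (fun p => Polynomial.coeff p 1) hq
    simp only [Polynomial.finsetSum_coeff, Polynomial.mul_coeff_one, Polynomial.coeff_zero,
      Polynomial.mul_coeff_zero, phi_coeff_zero] at h1
    have h2 : C (μ k) * ∑ i, ∑ j, w0 i * B i j * w0 j = 0 := by
      have h3 : C (μ k) * ∑ i, ∑ j, w0 i * B i j * w0 j =
          C (μ k) * (∑ i, ∑ j, ((w i).coeff 0 * C (eval η (A i j)) * (w j).coeff 1 +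
            ((w i).coeff 0 * (phi η (A i j)).coeff 1 +
              (w i).coeff 1 * C (eval η (A i j))) * (w j).coeff 0)) -
          ((∑ i, C (μ i) * w0 i) * (∑ j, C (μ j) * w1 j) +
            (∑ i, C (μ i) * w1 i) * (∑ j, C (μ j) * w0 j)) := by
        rw [Finset.sum_mul_sum, Finset.sum_mul_sum, Finset.mul_sum, Finset.mul_sum,
          ← Finset.sum_add_distrib, ← Finset.sum_sub_distrib]
        refine Finset.sum_congr rfl fun i _ => ?_
        rw [Finset.mul_sum, Finset.mul_sum, ← Finset.sum_add_distrib, ← Finset.sum_sub_distrib]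
        refine Finset.sum_congr rfl fun j _ => ?_
        have h4 := ha i j
        change C (μ k) * ((w i).coeff 0 * (phi η (A i j)).coeff 1 * (w j).coeff 0) =
          C (μ k) * ((w i).coeff 0 * C (eval η (A i j)) * (w j).coeff 1 +
            ((w i).coeff 0 * (phi η (A i j)).coeff 1 +
              (w i).coeff 1 * C (eval η (A i j))) * (w j).coeff 0) -
          (C (μ i) * (w i).coeff 0 * (C (μ j) * (w j).coeff 1) +
            C (μ i) * (w i).coeff 1 * (C (μ j) * (w j).coeff 0))
        linear_combination (-(w i).coeff 0 * (w j).coeff 1 - (w i).coeff 1 * (w j).coeff 0) * h4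
      rw [h3, hlin, h1]
      ring
    exact (mul_eq_zero.1 h2).resolve_left hCk
  have hfin := kernel_step k μ hμk w0 hlin B ?_ ?_ ?_ hquad
  · exact hi1 (congrFun hfin i1)
  · intro i j
    change ((phi η (A i j)).coeff 1).IsHomogeneous 1
    rw [phi_coeff_one]
    refine IsHomogeneous.sum _ _ _ fun l _ => ?_
    have := (isHomogeneous_C (Fin n) (eval η (pderiv l (A i j)))).mul (isHomogeneous_X ℂ l)
    rwa [zero_add] at this
  · intro i j
    change (phi η (A i j)).coeff 1 = (phi η (A j i)).coeff 1
    rw [hAs]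
  · intro u hu hBu
    by_contra hu0
    obtain ⟨l, hl⟩ := hder u hu0 (fun i => by
      have h1 : μ k * ∑ j, eval η (A i j) * u j = 0 := by
        have h2 : μ k * ∑ j, eval η (A i j) * u j = μ i * ∑ j, μ j * u j := by
          rw [Finset.mul_sum, Finset.mul_sum]
          refine Finset.sum_congr rfl fun j _ => ?_
          have := hμμ i j
          linear_combination -(u j) * this
        rw [h2, hu, mul_zero]
      exact (mul_eq_zero.1 h1).resolve_left hμk)
    apply hl
    have h1 : (phi η (∑ i, ∑ j, C (u i) * A i j * C (u j))).coeff 1 = 0 := by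
      rw [← hBu, map_sum, Polynomial.finsetSum_coeff]
      refine Finset.sum_congr rfl fun i _ => ?_
      rw [map_sum, Polynomial.finsetSum_coeff]
      refine Finset.sum_congr rfl fun j _ => ?_
      rw [map_mul, map_mul, phi_C, phi_C, Polynomial.coeff_mul_C, Polynomial.coeff_C_mul]
    rw [phi_coeff_one] at h1
    have h2 := congrArg (eval (Pi.single l (1 : ℂ))) h1
    rw [map_sum, map_zero, Finset.sum_eq_single l] at h2
    · simpa using h2
    · intro j _ hj
      rw [map_mul, eval_X, Pi.single_eq_of_ne hj, mul_zero]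
    · intro h
      exact absurd (Finset.mem_univ _) h

end

end Pool.Agent.H53.CL
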