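import Pool.Agent.Q79.CB.Generic

/-! # Generic points of smooth cubic hypersurfaces (after helper79 and helper960, any dimension) -/

set_option autoImplicit false

namespace Pool.Agent.H53.CL

open MvPolynomial Pool.Agent.TH314.PD Algebra

noncomputable section

variable {M : Type} [Field M] [Algebra ℂ M] {n : ℕ}

open scoped IntermediateField.algebraAdjoinAdjoin in
/-- independent coordinates -/
theorem exists_zeta {k : ℕ} (htr : Algebra.trdeg ℂ M = n) (x : Fin k → M) (j : Fin k)
    (hj : x j ≠ 0) (hfin : FiniteDimensional (ratioField x) M) :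
    ∃ ζ : Fin n → Fin k, AlgebraicIndependent ℂ (fun l => x (ζ l) / x j) := by
  classical
  set s : Set M := Set.range fun i => x i / x j with hs
  have h1 : Algebra.IsAlgebraic (IntermediateField.adjoin ℂ s) M := by
    rw [hs, Pool.Agent.Y960.C3.ratio_eq x j hj]
    infer_instance
  have h2 : Algebra.IsAlgebraic (Algebra.adjoin ℂ s) (IntermediateField.adjoin ℂ s) :=
    IsLocalization.isAlgebraic _ (nonZeroDivisors (Algebra.adjoin ℂ s))
  have h3 : Algebra.IsAlgebraic (Algebra.adjoin ℂ s) M :=
    Algebra.IsAlgebraic.trans (Algebra.adjoin ℂ s) (IntermediateField.adjoin ℂ s) M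
  obtain ⟨B, hB, hBt⟩ := exists_isTranscendenceBasis_subset (R := ℂ) s
  have h4 : Cardinal.mk B = Cardinal.mk (Fin n) := by
    rw [hBt.cardinalMk_eq_trdeg, htr, Cardinal.mk_fin]
  obtain ⟨e⟩ := Cardinal.eq.1 h4
  choose idx hidx using fun b : B => hB b.2
  refine ⟨fun l => idx (e.symm l), ?_⟩
  have h5 := hBt.1.comp e.symm e.symm.injective
  have h6 : (fun l => x (idx (e.symm l)) / x j) = (fun b : B => (b : M)) ∘ e.symm := by
    funext l
    exact hidx (e.symm l)
  rw [h6]
  exact h5

/-- a point of a smooth cubic hypersurface over a field of transcendence degree equal to the dimension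
is generic if the field is finite over the field of ratios -/
theorem generic_of_finite (hn : 1 ≤ n) (F : MvPolynomial (Fin (n + 2)) ℂ) (hF : F.IsHomogeneous 3)
    (hsm : ∀ z : Fin (n + 2) → ℂ, (∀ i, eval z (pderiv i F) = 0) → z = 0)
    (htr : Algebra.trdeg ℂ M = n) (x : Fin (n + 2) → M)
    (hx : aeval x F = 0) (hfin : FiniteDimensional (ratioField x) M) :
    ∀ (e : ℕ) (H : MvPolynomial (Fin (n + 2)) ℂ), H.IsHomogeneous e → aeval x H = 0 → F ∣ H := by
  classical
  have hirr : Irreducible F := Pool.Agent.Q79.CB.irreducible_smooth hn (by norm_num) F hF hsm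
  have hprime : ∀ (a b : ℕ) (A B : MvPolynomial (Fin (n + 2)) ℂ), A.IsHomogeneous a →
      B.IsHomogeneous b → F ∣ A * B → F ∣ A ∨ F ∣ B := fun _ _ A B _ _ h =>
    hirr.prime.dvd_or_dvd h
  have hxj : ∃ j, x j ≠ 0 := by
    by_contra hcon
    push Not at hcon
    have h1 : ratioField x = ⊥ := by
      rw [eq_bot_iff]
      unfold ratioField
      rw [IntermediateField.adjoin_le_iff]
      rintro _ ⟨a, b, rfl⟩
      rw [hcon a, zero_div]
      exact zero_mem _
    rw [h1] at hfin
    have h2 : Algebra.IsAlgebraic (⊥ : IntermediateField ℂ M) M := inferInstance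
    have h3 : Algebra.IsAlgebraic ℂ M := by
      have : Algebra.IsAlgebraic ℂ (⊥ : IntermediateField ℂ M) :=
        (IntermediateField.botEquiv ℂ M).symm.isAlgebraic
      exact Algebra.IsAlgebraic.trans ℂ (⊥ : IntermediateField ℂ M) M
    have h4 : Algebra.trdeg ℂ M = 0 := trdeg_eq_zero
    rw [htr] at h4
    have h5 : n = 0 := by exact_mod_cast h4
    omega
  obtain ⟨j, hj⟩ := hxj
  obtain ⟨ζ, hζ⟩ := exists_zeta htr x j hj hfin
  intro e H hH h0
  refine dom_of_indep hF (by norm_num) hirr.ne_zero hprime (aeval x)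
    (Fin.cons j ζ : Fin (n + 1) → Fin (n + 2)) hx ?_ hH h0
  intro l A hA hA0
  rw [aeval_rename] at hA0
  refine Pool.Agent.Y960.C3.no_form (fun l => x (ζ l) / x j) hζ (x j) hj l A hA ?_
  rw [← hA0]
  congr 2
  funext i
  refine Fin.cases ?_ (fun l => ?_) i
  · rw [Fin.cons_zero, mul_one]
    rfl
  · rw [Fin.cons_succ]
    change x j * (x (ζ l) / x j) = x (ζ l)
    field_simp

/-- the field of the ratios of `n` elements has smaller transcendence degree than `n` -/
theorem not_alg (htr : Algebra.trdeg ℂ M = n) (Y : Fin n → M) (j : Fin n) (h0 : Y j ≠ 0) :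
    ¬ Algebra.IsAlgebraic (ratioField Y) M := by
  classical
  intro hal
  set s : Set M := Set.range fun i : {i : Fin n // i ≠ j} => Y i / Y j with hs
  have hgen : ∀ i, Y i / Y j ∈ IntermediateField.adjoin ℂ s := by
    intro i
    by_cases hi : i = j
    · rw [hi, div_self h0]
      exact one_mem _
    · exact IntermediateField.subset_adjoin _ _ ⟨⟨i, hi⟩, rfl⟩
  have hle : ratioField Y = IntermediateField.adjoin ℂ s := by
    apply le_antisymm
    · refine IntermediateField.adjoin_le_iff.2 ?_
      rintro z ⟨i, k, rfl⟩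
      have : Y i / Y k = (Y i / Y j) / (Y k / Y j) := by
        rw [div_div_div_cancel_right₀ h0]
      rw [this]
      exact div_mem (hgen i) (hgen k)
    · refine IntermediateField.adjoin_le_iff.2 ?_
      rintro z ⟨i, rfl⟩
      exact IntermediateField.subset_adjoin _ _ ⟨_, _, rfl⟩
  rw [hle] at hal
  have h1 := IntermediateField.isAlgebraic_adjoin_iff_top.1 hal
  have h2 := Algebra.IsAlgebraic.trdeg_le_cardinalMk ℂ s
  rw [htr] at h2
  have h3 : Cardinal.mk s ≤ (Fintype.card {i : Fin n // i ≠ j} : ℕ) := by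
    refine Cardinal.mk_range_le.trans ?_
    rw [Cardinal.mk_fintype]
  have h4 : Fintype.card {i : Fin n // i ≠ j} < Fintype.card (Fin n) :=
    Fintype.card_subtype_lt (x := j) (by simp)
  rw [Fintype.card_fin] at h4
  have h5 : n ≤ Fintype.card {i : Fin n // i ≠ j} := by exact_mod_cast h2.trans h3
  omega

end

end Pool.Agent.H53.CL
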