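import Pool.Agent.H53.CL.An2
import Pool.Agent.H53.CL.Gen
import Pool.Agent.Q79.CB.Conic2
import Pool.Agent.Y246.C3.Cb

/-! # Cubic hypersurfaces containing a line: the conic bundle of the line -/

set_option autoImplicit false

namespace Pool.Agent.H53.CL

open MvPolynomial Pool.Agent.TH314.PD IntermediateField

noncomputable section

variable {n : ℕ}

/-- the degrees of the entries of the matrix of the conic bundle are `1 + dg i + dg j` -/
def dg : Fin 3 → ℕ := ![0, 0, 1]

theorem dg0 : dg 0 = 0 := rfl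
theorem dg1 : dg 1 = 0 := rfl
theorem dg2 : dg 2 = 1 := rfl

/-- the variables `x_0`, `x_1`, `1` -/
def vX (n : ℕ) : Fin 3 → MvPolynomial (Fin (n + 2)) ℂ := ![X 0, X 1, 1]

/-- the cubic form `∑ v_i A_ij(y) v_j`, `v = (x_0, x_1, 1)`, `y = (x_2, ..., x_(n+1))` -/
def cub (A : Matrix (Fin 3) (Fin 3) (MvPolynomial (Fin n) ℂ)) : MvPolynomial (Fin (n + 2)) ℂ :=
  ∑ i, ∑ j, vX n i * rename (fun l : Fin n => l.succ.succ) (A i j) * vX n j

/-- the ternary form with matrix `A(Y)` at `w` -/
def q (A : Matrix (Fin 3) (Fin 3) (MvPolynomial (Fin n) ℂ)) {R : Type} [CommRing R] [Algebra ℂ R]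
    (Y : Fin n → R) (w : Fin 3 → R) : R :=
  ∑ i, ∑ j, w i * aeval Y (A i j) * w j

/-- the point `(w_0, w_1, w_2 Y)` -/
def pt {R : Type} [CommRing R] (w : Fin 3 → R) (Y : Fin n → R) : Fin (n + 2) → R :=
  Fin.cons (w 0) (Fin.cons (w 1) fun l => w 2 * Y l)

section alg

variable {A : Matrix (Fin 3) (Fin 3) (MvPolynomial (Fin n) ℂ)}
  (hA : ∀ i j, (A i j).IsHomogeneous (1 + dg i + dg j)) {R : Type} [CommRing R] [Algebra ℂ R]

theorem pt_zero (w : Fin 3 → R) (Y : Fin n → R) : pt w Y 0 = w 0 := rfl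

theorem pt_one (w : Fin 3 → R) (Y : Fin n → R) : pt w Y 1 = w 1 := rfl

theorem pt_succ (w : Fin 3 → R) (Y : Fin n → R) (l : Fin n) : pt w Y l.succ.succ = w 2 * Y l := rfl

include hA in
theorem q_scale (c : R) (Y : Fin n → R) (w : Fin 3 → R) :
    q A (fun l => c * Y l) w = c * q A Y ![w 0, w 1, c * w 2] := by
  unfold q
  have h : ∀ i j, aeval (fun l => c * Y l) (A i j) = c ^ (1 + dg i + dg j) * aeval Y (A i j) :=
    fun i j => aeval_smul_form (hA i j) c Y
  simp only [h, Fin.sum_univ_three, dg0, dg1, dg2, Matrix.cons_val_zero, Matrix.cons_val_one,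
    Matrix.cons_val]
  ring

theorem q_smul (Y : Fin n → R) (c : R) (w : Fin 3 → R) :
    q A Y (fun i => c * w i) = c ^ 2 * q A Y w := by
  unfold q
  rw [Finset.mul_sum]
  refine Finset.sum_congr rfl fun i _ => ?_
  rw [Finset.mul_sum]
  refine Finset.sum_congr rfl fun j _ => ?_
  ring

theorem q_map {S : Type} [CommRing S] [Algebra ℂ S] (f : R →ₐ[ℂ] S) (Y : Fin n → R)
    (w : Fin 3 → R) : f (q A Y w) = q A (fun l => f (Y l)) (fun i => f (w i)) := by
  unfold q
  rw [map_sum]
  refine Finset.sum_congr rfl fun i _ => ?_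
  rw [map_sum]
  refine Finset.sum_congr rfl fun j _ => ?_
  rw [map_mul, map_mul]
  congr 2
  exact comp_aeval_apply Y f (A i j)

include hA in
theorem aeval_cub (w : Fin 3 → R) (Y : Fin n → R) : aeval (pt w Y) (cub A) = w 2 * q A Y w := by
  have h : ∀ i j, aeval (pt w Y) (rename (fun l : Fin n => l.succ.succ) (A i j)) =
      (w 2) ^ (1 + dg i + dg j) * aeval Y (A i j) := by
    intro i j
    rw [aeval_rename]
    exact aeval_smul_form (hA i j) (w 2) Y
  have h0 : aeval (pt w Y) (vX n 0) = w 0 := by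
    change aeval (pt w Y) (X 0) = _
    rw [aeval_X, pt_zero]
  have h1 : aeval (pt w Y) (vX n 1) = w 1 := by
    change aeval (pt w Y) (X 1) = _
    rw [aeval_X, pt_one]
  have h2 : aeval (pt w Y) (vX n 2) = 1 := by
    change aeval (pt w Y) 1 = _
    rw [map_one]
  unfold cub q
  simp only [map_add, map_mul, h, Fin.sum_univ_three, h0, h1, h2, dg0, dg1, dg2]
  ring

theorem rename_hom {d : ℕ} {p : MvPolynomial (Fin n) ℂ} (hp : p.IsHomogeneous d) :
    (rename (fun l : Fin n => (l.succ.succ : Fin (n + 2))) p).IsHomogeneous d :=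
  hp.rename_isHomogeneous

include hA in
theorem cub_hom : (cub A).IsHomogeneous 3 := by
  unfold cub
  have hv : ∀ i, (vX n i).IsHomogeneous (1 - dg i) := by
    intro i
    fin_cases i
    · exact isHomogeneous_X _ _
    · exact isHomogeneous_X _ _
    · exact isHomogeneous_one _ _
  refine IsHomogeneous.sum _ _ _ fun i _ => IsHomogeneous.sum _ _ _ fun j _ => ?_
  have h := ((hv i).mul (rename_hom (hA i j))).mul (hv j)
  have hd : ∀ i, dg i ≤ 1 := by
    intro i
    fin_cases i <;> simp [dg]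
  have e : 1 - dg i + (1 + dg i + dg j) + (1 - dg j) = 3 := by
    have := hd i
    have := hd j
    omega
  rwa [e] at h

end alg

section smooth

variable {A : Matrix (Fin 3) (Fin 3) (MvPolynomial (Fin n) ℂ)}
  (hs : A.IsSymm) (hA : ∀ i j, (A i j).IsHomogeneous (1 + dg i + dg j))

theorem pderiv_ren (a : Fin (n + 2)) (ha : ∀ l : Fin n, l.succ.succ ≠ a)
    (p : MvPolynomial (Fin n) ℂ) : pderiv a (rename (fun l : Fin n => l.succ.succ) p) = 0 := by
  induction p using MvPolynomial.induction_on with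
  | C c => rw [rename_C, pderiv_C]
  | add f g hf hg => rw [map_add, map_add, hf, hg, add_zero]
  | mul_X f l hf =>
    rw [map_mul, rename_X, pderiv_mul, hf, pderiv_X_of_ne (ha l)]
    ring

theorem ev_ae {σ : Type} (b : σ → ℂ) (p : MvPolynomial σ ℂ) : eval b p = aeval b p := by
  rw [aeval_eq_eval]

theorem eval_ren (u : Fin 3 → ℂ) (η : Fin n → ℂ) {d : ℕ} {p : MvPolynomial (Fin n) ℂ}
    (hp : p.IsHomogeneous d) :
    eval (pt u η) (rename (fun l : Fin n => l.succ.succ) p) = u 2 ^ d * eval η p := by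
  rw [ev_ae, aeval_rename, ev_ae]
  exact aeval_smul_form hp (u 2) η

theorem eval_vX (u : Fin 3 → ℂ) (η : Fin n → ℂ) :
    eval (pt u η) (vX n 0) = u 0 ∧ eval (pt u η) (vX n 1) = u 1 ∧ eval (pt u η) (vX n 2) = 1 := by
  refine ⟨?_, ?_, ?_⟩
  · change eval (pt u η) (X 0) = _
    rw [eval_X, pt_zero]
  · change eval (pt u η) (X 1) = _
    rw [eval_X, pt_one]
  · change eval (pt u η) 1 = _
    rw [map_one]

include hA in
theorem eval_pderiv_succ (u : Fin 3 → ℂ) (η : Fin n → ℂ) (l : Fin n) :
    eval (pt u η) (pderiv l.succ.succ (cub A)) =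
      ∑ i, ∑ j, u i * eval η (pderiv l (A i j)) * u j := by
  have hinj : Function.Injective (fun l : Fin n => (l.succ.succ : Fin (n + 2))) :=
    fun a b h => Fin.succ_injective _ (Fin.succ_injective _ h)
  have hr : ∀ i j, pderiv l.succ.succ (rename (fun l : Fin n => (l.succ.succ : Fin (n + 2))) (A i j)) =
      rename (fun l : Fin n => (l.succ.succ : Fin (n + 2))) (pderiv l (A i j)) := fun i j =>
    pderiv_rename hinj l (A i j)
  have hv : ∀ i, pderiv (l.succ.succ : Fin (n + 2)) (vX n i) = 0 := by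
    intro i
    fin_cases i
    · exact pderiv_X_of_ne (Fin.succ_ne_zero _).symm
    · refine pderiv_X_of_ne ?_
      intro h
      have h1 : (0 : Fin (n + 1)).succ = l.succ.succ := h
      exact Fin.succ_ne_zero _ (Fin.succ_injective _ h1).symm
    · exact pderiv_one
  have hd : ∀ i j, eval (pt u η) (rename (fun l : Fin n => (l.succ.succ : Fin (n + 2)))
      (pderiv l (A i j))) = u 2 ^ (dg i + dg j) * eval η (pderiv l (A i j)) := by
    intro i j
    have h1 : (pderiv l (A i j)).IsHomogeneous (dg i + dg j) := by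
      have := (hA i j).pderiv (i := l)
      rwa [show 1 + dg i + dg j - 1 = dg i + dg j by omega] at this
    exact eval_ren u η h1
  obtain ⟨e0, e1, e2⟩ := eval_vX u η
  unfold cub
  simp only [map_add, pderiv_mul, hv, hr, zero_mul, mul_zero, zero_add, add_zero, map_mul, hd,
    Fin.sum_univ_three, e0, e1, e2, dg0, dg1, dg2]
  ring

include hs hA in
theorem eval_pderiv_zero (u : Fin 3 → ℂ) (η : Fin n → ℂ) :
    eval (pt u η) (pderiv 0 (cub A)) = 2 * u 2 * ∑ j, eval η (A 0 j) * u j := by
  have h0 : ∀ l : Fin n, (l.succ.succ : Fin (n + 2)) ≠ 0 := fun l => Fin.succ_ne_zero _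
  have hr : ∀ i j, pderiv 0 (rename (fun l : Fin n => (l.succ.succ : Fin (n + 2))) (A i j)) = 0 :=
    fun i j => pderiv_ren 0 h0 _
  have hv0 : pderiv (0 : Fin (n + 2)) (vX n 0) = 1 := pderiv_X_self 0
  have hv1 : pderiv (0 : Fin (n + 2)) (vX n 1) = 0 := pderiv_X_of_ne (by
    intro h
    have := congrArg Fin.val h
    simp at this)
  have hv2 : pderiv (0 : Fin (n + 2)) (vX n 2) = 0 := pderiv_one
  have hd : ∀ i j, eval (pt u η) (rename (fun l : Fin n => (l.succ.succ : Fin (n + 2))) (A i j)) =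
      u 2 ^ (1 + dg i + dg j) * eval η (A i j) := fun i j => eval_ren u η (hA i j)
  obtain ⟨e0, e1, e2⟩ := eval_vX u η
  have s10 : A 1 0 = A 0 1 := hs.apply 0 1
  have s20 : A 2 0 = A 0 2 := hs.apply 0 2
  unfold cub
  simp only [pderiv_mul, hv0, hv1, hv2, hr, zero_mul, mul_zero, zero_add, add_zero, map_mul,
    map_add, hd, Fin.sum_univ_three, e0, e1, e2, dg0, dg1, dg2, s10, s20, one_mul, mul_one]
  ring

include hs hA in
theorem eval_pderiv_one (u : Fin 3 → ℂ) (η : Fin n → ℂ) :
    eval (pt u η) (pderiv 1 (cub A)) = 2 * u 2 * ∑ j, eval η (A 1 j) * u j := by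
  have h0 : ∀ l : Fin n, (l.succ.succ : Fin (n + 2)) ≠ 1 := by
    intro l h
    have h1 : l.succ.succ = (0 : Fin (n + 1)).succ := h
    exact Fin.succ_ne_zero _ (Fin.succ_injective _ h1)
  have hr : ∀ i j, pderiv 1 (rename (fun l : Fin n => (l.succ.succ : Fin (n + 2))) (A i j)) = 0 :=
    fun i j => pderiv_ren 1 h0 _
  have hv0 : pderiv (1 : Fin (n + 2)) (vX n 0) = 0 := pderiv_X_of_ne (by
    intro h
    have := congrArg Fin.val h
    simp at this)
  have hv1 : pderiv (1 : Fin (n + 2)) (vX n 1) = 1 := pderiv_X_self 1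
  have hv2 : pderiv (1 : Fin (n + 2)) (vX n 2) = 0 := pderiv_one
  have hd : ∀ i j, eval (pt u η) (rename (fun l : Fin n => (l.succ.succ : Fin (n + 2))) (A i j)) =
      u 2 ^ (1 + dg i + dg j) * eval η (A i j) := fun i j => eval_ren u η (hA i j)
  obtain ⟨e0, e1, e2⟩ := eval_vX u η
  have s10 : A 0 1 = A 1 0 := hs.apply 1 0
  have s20 : A 2 1 = A 1 2 := hs.apply 1 2
  unfold cub
  simp only [pderiv_mul, hv0, hv1, hv2, hr, zero_mul, mul_zero, zero_add, add_zero, map_mul,
    map_add, hd, Fin.sum_univ_three, e0, e1, e2, dg0, dg1, dg2, s10, s20, one_mul, mul_one]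
  ring

include hs hA in
/-- **Anisotropy.** If the cubic is smooth and the conic over `η` is a double line, then the generic
conic has no point. -/
theorem aniso_poly
    (hsm : ∀ z : Fin (n + 2) → ℂ, (∀ i, eval z (pderiv i (cub A)) = 0) → z = 0)
    (η : Fin n → ℂ) (hne : ∃ i j, eval η (A i j) ≠ 0)
    (hmin : ∀ i j k l : Fin 3, eval η (A i k) * eval η (A j l) = eval η (A i l) * eval η (A j k))
    (V : Fin 3 → MvPolynomial (Fin n) ℂ) (hV : ∑ i, ∑ j, V i * A i j * V j = 0) : V = 0 := by
  refine an A hs η hne hmin (fun u hu hk => ?_) V hV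
  by_contra hcon
  push Not at hcon
  have hη : η ≠ 0 := by
    rintro rfl
    obtain ⟨i, j, hij⟩ := hne
    apply hij
    rw [eval_zero, constantCoeff_eq]
    refine (hA i j).coeff_eq_zero ?_
    rw [map_zero]
    omega
  have hz := hsm (pt u η) (fun i => by
    refine Fin.cases ?_ (fun i => Fin.cases ?_ (fun l => ?_) i) i
    · rw [eval_pderiv_zero hs hA, hk 0, mul_zero]
    · change eval (pt u η) (pderiv 1 (cub A)) = 0
      rw [eval_pderiv_one hs hA, hk 1, mul_zero]
    · rw [eval_pderiv_succ hA]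
      have h1 := hcon l
      simp only [map_sum, pderiv_mul, pderiv_C, zero_mul, mul_zero, zero_add, add_zero, map_mul,
        eval_C] at h1
      exact h1)
  have h0 : u 0 = 0 := by
    have := congrFun hz 0
    rwa [pt_zero] at this
  have h1 : u 1 = 0 := by
    have := congrFun hz 1
    rwa [pt_one] at this
  have h2 : u 2 = 0 := by
    by_contra h
    apply hη
    funext l
    have := congrFun hz l.succ.succ
    rw [pt_succ] at this
    exact (mul_eq_zero.1 this).resolve_left h
  apply hu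
  funext i
  fin_cases i
  · exact h0
  · exact h1
  · exact h2

end smooth

section field

variable {A : Matrix (Fin 3) (Fin 3) (MvPolynomial (Fin n) ℂ)}
  (hs : A.IsSymm) (hA : ∀ i j, (A i j).IsHomogeneous (1 + dg i + dg j))
  (hAn : ∀ V : Fin 3 → MvPolynomial (Fin n) ℂ, ∑ i, ∑ j, V i * A i j * V j = 0 → V = 0)
  {M : Type} [Field M] [Algebra ℂ M]

include hA hAn in
/-- the conic is anisotropic over the field of ratios -/
theorem aniso_field (Y : Fin n → M)
    (hY : ∀ (e : ℕ) (H : MvPolynomial (Fin n) ℂ), H.IsHomogeneous e → aeval Y H = 0 → H = 0)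
    (j : Fin n) (h0 : Y j ≠ 0) (W : Fin 3 → M) (hW : ∀ i, W i ∈ ratioField Y)
    (hq : q A (fun l => Y l / Y j) W = 0) : W = 0 := by
  obtain ⟨D, P, Q, hP, hQ, hPQ⟩ := Pool.Agent.Y246.C3.exists_form3 Y W hW
  obtain ⟨V, hVd⟩ : ∃ V : Fin 3 → MvPolynomial (Fin n) ℂ, V = ![P 0 * X j, P 1 * X j, P 2] :=
    ⟨_, rfl⟩
  have e0 : V 0 = P 0 * X j := by rw [hVd]; rfl
  have e1 : V 1 = P 1 * X j := by rw [hVd]; rfl
  have e2 : V 2 = P 2 := by rw [hVd]; rfl
  have hVh : ∀ i, (V i).IsHomogeneous (D + (1 - dg i)) := by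
    intro i
    fin_cases i
    · change (V 0).IsHomogeneous (D + 1)
      rw [e0]
      exact (hP 0).mul (isHomogeneous_X _ _)
    · change (V 1).IsHomogeneous (D + 1)
      rw [e1]
      exact (hP 1).mul (isHomogeneous_X _ _)
    · change (V 2).IsHomogeneous (D + 0)
      rw [e2]
      exact hP 2
  have hd : ∀ i, dg i ≤ 1 := by
    intro i
    fin_cases i <;> simp [dg]
  have hh : (∑ i, ∑ j, V i * A i j * V j).IsHomogeneous (2 * D + 3) := by
    refine IsHomogeneous.sum _ _ _ fun i _ => IsHomogeneous.sum _ _ _ fun k _ => ?_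
    have h := ((hVh i).mul (hA i k)).mul (hVh k)
    have e : D + (1 - dg i) + (1 + dg i + dg k) + (D + (1 - dg k)) = 2 * D + 3 := by
      have := hd i
      have := hd k
      omega
    rwa [e] at h
  have hYY : Y = fun l => Y j * (Y l / Y j) := by
    funext l
    field_simp
  have hval : aeval Y (∑ i, ∑ j, V i * A i j * V j) = 0 := by
    have h1 : aeval Y (∑ i, ∑ j, V i * A i j * V j) = q A Y (fun i => aeval Y (V i)) := by
      unfold q
      rw [map_sum]
      refine Finset.sum_congr rfl fun i _ => ?_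
      rw [map_sum]
      refine Finset.sum_congr rfl fun k _ => ?_
      rw [map_mul, map_mul]
    have h2 : (![aeval Y (V 0), aeval Y (V 1), Y j * aeval Y (V 2)] : Fin 3 → M) =
        fun i => (aeval Y Q * Y j) * W i := by
      funext i
      fin_cases i
      · change aeval Y (V 0) = aeval Y Q * Y j * W 0
        rw [e0, map_mul, aeval_X, hPQ 0]
        ring
      · change aeval Y (V 1) = aeval Y Q * Y j * W 1
        rw [e1, map_mul, aeval_X, hPQ 1]
        ring
      · change Y j * aeval Y (V 2) = aeval Y Q * Y j * W 2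
        rw [e2, hPQ 2]
        ring
    rw [h1]
    have h3 := q_scale hA (Y j) (fun l => Y l / Y j) (fun i => aeval Y (V i))
    rw [← hYY] at h3
    rw [h3, h2, q_smul, hq, mul_zero, mul_zero]
  have hz := hAn V (hY _ _ hh hval)
  have hP0 : ∀ i, P i = 0 := by
    intro i
    fin_cases i
    · have := congrFun hz 0
      rw [e0] at this
      exact (mul_eq_zero.1 this).resolve_right (X_ne_zero j)
    · have := congrFun hz 1
      rw [e1] at this
      exact (mul_eq_zero.1 this).resolve_right (X_ne_zero j)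
    · have := congrFun hz 2
      rw [e2] at this
      exact this
  funext i
  have := hPQ i
  rw [hP0 i, map_zero] at this
  exact (mul_eq_zero.1 this.symm).resolve_left hQ

/-- the fields of ratios of a point and of a point of the conic -/
theorem fields (Y : Fin n → M) (j : Fin n) (h0 : Y j ≠ 0) (w : Fin 3 → M) (h2 : w 2 ≠ 0) :
    (adjoin (ratioField Y)
      {z : M | ∃ i k, z = (![w 0, w 1, Y j * w 2] : Fin 3 → M) i /
        (![w 0, w 1, Y j * w 2] : Fin 3 → M) k}).restrictScalars ℂ = ratioField (pt w Y) := by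
  obtain ⟨v, hvd⟩ : ∃ v : Fin 3 → M, v = ![w 0, w 1, Y j * w 2] := ⟨_, rfl⟩
  rw [← hvd]
  have v0 : v 0 = w 0 := by rw [hvd]; rfl
  have v1 : v 1 = w 1 := by rw [hvd]; rfl
  have v2 : v 2 = Y j * w 2 := by rw [hvd]; rfl
  have hv2 : v 2 ≠ 0 := by
    rw [v2]
    exact mul_ne_zero h0 h2
  have hrat : ∀ i k, pt w Y i / pt w Y k ∈ ratioField (pt w Y) := fun i k =>
    subset_adjoin _ _ ⟨i, k, rfl⟩
  apply le_antisymm
  · rw [restrictScalars_adjoin]
    refine adjoin_le_iff.2 ?_
    have hv : ∀ i : Fin 3, ∃ k : Fin (n + 2), v i = pt w Y k := by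
      intro i
      fin_cases i
      · exact ⟨0, v0⟩
      · exact ⟨1, v1⟩
      · exact ⟨j.succ.succ, by rw [pt_succ]; exact v2.trans (mul_comm _ _)⟩
    rintro z (hz | ⟨i, k, rfl⟩)
    · have hle : ratioField Y ≤ ratioField (pt w Y) := by
        refine adjoin_le_iff.2 ?_
        rintro z ⟨i, k, rfl⟩
        have : Y i / Y k = pt w Y i.succ.succ / pt w Y k.succ.succ := by
          rw [pt_succ, pt_succ, mul_div_mul_left _ _ h2]
        rw [this]
        exact hrat _ _
      exact hle hz
    · obtain ⟨a, ha⟩ := hv i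
      obtain ⟨b, hb⟩ := hv k
      rw [ha, hb]
      exact hrat _ _
  · refine adjoin_le_iff.2 ?_
    set S : Set M := {z : M | ∃ i k, z = v i / v k} with hS
    have hK : ∀ i k, Y i / Y k ∈ adjoin (ratioField Y) S := by
      intro i k
      exact (adjoin (ratioField Y) S).algebraMap_mem
        (⟨Y i / Y k, subset_adjoin _ _ ⟨i, k, rfl⟩⟩ : ratioField Y)
    have hg : ∀ i, pt w Y i / v 2 ∈ adjoin (ratioField Y) S := by
      intro i
      refine Fin.cases ?_ (fun i => Fin.cases ?_ (fun l => ?_) i) i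
      · rw [pt_zero, ← v0]
        exact subset_adjoin _ _ ⟨0, 2, rfl⟩
      · change pt w Y 1 / v 2 ∈ _
        rw [pt_one, ← v1]
        exact subset_adjoin _ _ ⟨1, 2, rfl⟩
      · rw [pt_succ, v2, mul_comm (w 2), mul_div_mul_right _ _ h2]
        exact hK l j
    rintro z ⟨i, k, rfl⟩
    have : pt w Y i / pt w Y k = (pt w Y i / v 2) / (pt w Y k / v 2) := by
      rw [div_div_div_cancel_right₀ hv2]
    rw [this]
    exact div_mem (hg i) (hg k)

include hs hA hAn in
/-- **Parity.** -/
theorem parity (htr : Algebra.trdeg ℂ M = n) (Y : Fin n → M)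
    (hY : ∀ (e : ℕ) (H : MvPolynomial (Fin n) ℂ), H.IsHomogeneous e → aeval Y H = 0 → H = 0)
    (j : Fin n) (h0 : Y j ≠ 0) (w : Fin 3 → M) (h2 : w 2 ≠ 0) (hw : q A Y w = 0)
    (hodd : Odd (Module.finrank (ratioField (pt w Y)) M)) :
    (∀ w' : Fin 3 → M, q A Y w' = 0 → w' 2 = 0 → w' = 0) ∧
    ∀ w' : Fin 3 → M, q A Y w' = 0 → w' 2 ≠ 0 →
      Odd (Module.finrank (ratioField (pt w' Y)) M) := by
  have hYm : ∀ l, Y l / Y j ∈ ratioField Y := fun l => subset_adjoin _ _ ⟨l, j, rfl⟩
  obtain ⟨yK, hyK⟩ : ∃ yK : Fin n → ratioField Y, yK = fun l => ⟨Y l / Y j, hYm l⟩ := ⟨_, rfl⟩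
  obtain ⟨B, hB⟩ : ∃ B : Matrix (Fin 3) (Fin 3) (ratioField Y), B = fun i k => aeval yK (A i k) :=
    ⟨_, rfl⟩
  have hyv : (fun l => (ratioField Y).val (yK l)) = fun l => Y l / Y j := by
    rw [hyK]
    rfl
  have hBM : ∀ i k, algebraMap (ratioField Y) M (B i k) = aeval (fun l => Y l / Y j) (A i k) := by
    intro i k
    rw [hB, ← hyv]
    exact comp_aeval_apply yK (ratioField Y).val (A i k)
  have hBs : B.IsSymm := by
    refine Matrix.IsSymm.ext fun i k => ?_
    rw [hB]
    simp only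
    rw [hs.apply]
  have hchar : CharZero (ratioField Y) :=
    charZero_of_injective_algebraMap (algebraMap ℂ (ratioField Y)).injective
  have hanK : ∀ w : Fin 3 → ratioField Y, ∑ i, ∑ k, w i * B i k * w k = 0 → w = 0 := by
    intro w hw
    have h1 := congrArg (algebraMap (ratioField Y) M) hw
    simp only [map_sum, map_mul, map_zero, hBM] at h1
    have h3 := aniso_field hA hAn Y hY j h0 (fun i => (w i : M)) (fun i => (w i).2) h1
    funext i
    exact Subtype.ext (congrFun h3 i)
  -- points of the conic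
  have hconic : ∀ w : Fin 3 → M, q A Y w = 0 →
      ∑ i, ∑ k, (![w 0, w 1, Y j * w 2] : Fin 3 → M) i * algebraMap (ratioField Y) M (B i k) *
        (![w 0, w 1, Y j * w 2] : Fin 3 → M) k = 0 := by
    intro w hw
    have hYY : Y = fun l => Y j * (Y l / Y j) := by
      funext l
      field_simp
    have h3 := q_scale hA (Y j) (fun l => Y l / Y j) w
    rw [← hYY, hw] at h3
    have h4 := (mul_eq_zero.1 h3.symm).resolve_left h0
    simp only [hBM]
    exact h4
  have hodd' : Odd (Module.finrank (adjoin (ratioField Y)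
      {z : M | ∃ i k, z = (![w 0, w 1, Y j * w 2] : Fin 3 → M) i /
        (![w 0, w 1, Y j * w 2] : Fin 3 → M) k}) M) := by
    have h1 := fields Y j h0 w h2
    rw [← h1] at hodd
    exact hodd
  obtain ⟨c1, c2⟩ := Pool.Agent.Q79.CB.conic2 (ratioField Y) M B hBs hanK (not_alg htr Y j h0)
    ![w 0, w 1, Y j * w 2] (hconic w hw) hodd'
  refine ⟨fun w' hw' h2' => ?_, fun w' hw' h2' => ?_⟩
  · have h3 := hconic w' hw'
    have B00 : B 0 0 ≠ 0 := by
      intro h
      have h1 := hanK ![1, 0, 0] (by simp [Fin.sum_univ_three, h])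
      have h2 := congrFun h1 0
      simp at h2
    have hB00 : algebraMap (ratioField Y) M (B 0 0) ≠ 0 := (map_ne_zero _).2 B00
    have s10 : B 1 0 = B 0 1 := hBs.apply 0 1
    simp only [Fin.sum_univ_three, Matrix.cons_val_zero, Matrix.cons_val_one, Matrix.cons_val, h2',
      mul_zero, zero_mul, add_zero, s10] at h3
    by_cases h1 : w' 1 = 0
    · have h4 : w' 0 = 0 := by
        rw [h1] at h3
        have h5 : w' 0 ^ 2 * algebraMap (ratioField Y) M (B 0 0) = 0 := by linear_combination h3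
        have := (mul_eq_zero.1 h5).resolve_right hB00
        exact pow_eq_zero_iff (two_ne_zero) |>.1 this
      funext i
      fin_cases i
      · exact h4
      · exact h1
      · exact h2'
    · exfalso
      obtain ⟨k, hk⟩ := c1 (w' 0 / w' 1) ⟨2 * B 0 1 / B 0 0, B 1 1 / B 0 0, by
        rw [map_div₀, map_div₀, map_mul, map_ofNat]
        field_simp
        linear_combination h3⟩
      have h5 : w' 0 = algebraMap (ratioField Y) M k * w' 1 := by
        rw [← hk]
        field_simp
      have h6 : k ^ 2 * B 0 0 + 2 * k * B 0 1 + B 1 1 = 0 := by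
        apply (algebraMap (ratioField Y) M).injective
        rw [map_zero, map_add, map_add, map_mul, map_mul, map_mul, map_pow, map_ofNat]
        have h7 : w' 1 ^ 2 * (algebraMap (ratioField Y) M k ^ 2 * algebraMap (ratioField Y) M (B 0 0) +
            2 * algebraMap (ratioField Y) M k * algebraMap (ratioField Y) M (B 0 1) +
            algebraMap (ratioField Y) M (B 1 1)) = 0 := by
          rw [h5] at h3
          linear_combination h3
        exact (mul_eq_zero.1 h7).resolve_left (pow_ne_zero 2 h1)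
      have h8 := hanK ![k, 1, 0] (by
        simp only [Fin.sum_univ_three, Matrix.cons_val_zero, Matrix.cons_val_one, Matrix.cons_val,
          mul_zero, zero_mul, add_zero, s10]
        linear_combination h6)
      have h9 := congrFun h8 1
      simp at h9
  · have h1 := fields Y j h0 w' h2'
    rw [← h1]
    refine c2 ![w' 0, w' 1, Y j * w' 2] ?_ (hconic w' hw')
    intro h
    have h3 := congrFun h 2
    simp only [Matrix.cons_val, Pi.zero_apply] at h3
    exact mul_ne_zero h0 h2' h3

end field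

end

end Pool.Agent.H53.CL
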