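import Pool.Agent.H53.CL.Conc
import Pool.Agent.Y201.LI.Thm3

/-! # Curves over lines on cubic hypersurfaces: descent on the conic bundle of a line (any dimension)

The idea of the descent (third intersection points with the line) and the behaviour under a change of
the parameter are from helper79's `Q79.CB.Desc` (cubic fourfolds). -/

set_option autoImplicit false

namespace Pool.Agent.H53.CL

open Polynomial Pool.Agent.TH314.PD Pool.Agent.Y201.C3

noncomputable section

variable {n : ℕ}

/-- ternary quadratic forms -/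
def qq {R : Type} [CommRing R] (B : Fin 3 → Fin 3 → R) (w0 w1 w2 : R) : R :=
  B 0 0 * w0 ^ 2 + 2 * B 0 1 * w0 * w1 + B 1 1 * w1 ^ 2 + 2 * B 0 2 * w0 * w2 +
    2 * B 1 2 * w1 * w2 + B 2 2 * w2 ^ 2

/-- the algebra of one step of the descent -/
theorem step_alg {R : Type} [CommRing R] (B : Fin 3 → Fin 3 → R) (r s a b g G Φ : R)
    (h : qq B (g * a + r) (g * b + s) g = 0) (hΦ : Φ = qq B a b 1)
    (hG : G = 2 * (B 0 0 * r * a + B 0 1 * (r * b + s * a) + B 1 1 * s * b + B 0 2 * r + B 1 2 * s) +
      g * Φ) :
    qq B r s 0 = -(g * G) ∧ qq B (G * a - Φ * r) (G * b - Φ * s) G = 0 := by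
  have h1 : qq B r s 0 = -(g * G) := by
    have e : qq B (g * a + r) (g * b + s) g = qq B r s 0 + g * (2 * (B 0 0 * r * a +
        B 0 1 * (r * b + s * a) + B 1 1 * s * b + B 0 2 * r + B 1 2 * s) + g * qq B a b 1) := by
      unfold qq
      ring
    rw [e, ← hΦ, ← hG] at h
    linear_combination h
  refine ⟨h1, ?_⟩
  have e : qq B (G * a - Φ * r) (G * b - Φ * s) G = G ^ 2 * qq B a b 1 - 2 * G * Φ *
      (B 0 0 * r * a + B 0 1 * (r * b + s * a) + B 1 1 * s * b + B 0 2 * r + B 1 2 * s) +
      Φ ^ 2 * qq B r s 0 := by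
    unfold qq
    ring
  rw [e, h1, ← hΦ]
  linear_combination (G * Φ) * hG

theorem div_deg {K : Type} [Field K] (V g : K[X]) (m : ℕ) (hV : V.natDegree ≤ m + 1 + 1)
    (hg : g.natDegree = m + 1) : ∃ a r : K[X], V = g * a + r ∧ a.natDegree ≤ 1 ∧
      r.natDegree ≤ m := by
  have hgd : g.natDegree ≠ 0 := by omega
  have h1 := natDegree_mod_lt V hgd
  have h2 : g * (V / g) + V % g = V := EuclideanDomain.div_add_mod V g
  refine ⟨V / g, V % g, h2.symm, ?_, by omega⟩
  by_cases h0 : V / g = 0
  · rw [h0, natDegree_zero]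
    omega
  · have hg0 : g ≠ 0 := by
      rintro rfl
      rw [natDegree_zero] at hgd
      omega
    have h3 : (g * (V / g)).natDegree = g.natDegree + (V / g).natDegree := natDegree_mul hg0 h0
    have h4 : g * (V / g) = V - V % g := eq_sub_of_add_eq h2
    have h5 : (V - V % g).natDegree ≤ m + 2 := by
      refine (natDegree_sub_le _ _).trans (max_le hV (by omega))
    rw [← h4] at h5
    omega

/-- degrees of the values of forms at polynomials of degree one -/
theorem natDegree_aeval {K : Type} [Field K] [Algebra ℂ K] {d : ℕ} {p : MvPolynomial (Fin n) ℂ}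
    (hp : p.IsHomogeneous d) (Y : Fin n → K[X]) (hY : ∀ l, (Y l).natDegree ≤ 1) :
    (MvPolynomial.aeval Y p).natDegree ≤ d := by
  classical
  rw [MvPolynomial.aeval_def, MvPolynomial.eval₂_eq]
  refine natDegree_sum_le_of_forall_le _ _ fun α hα => ?_
  refine natDegree_mul_le.trans ?_
  have h1 : (algebraMap ℂ K[X] (MvPolynomial.coeff α p)).natDegree = 0 := by
    rw [IsScalarTower.algebraMap_apply ℂ K K[X]]
    exact natDegree_C _
  rw [h1, zero_add]
  have h2 : ∑ i ∈ α.support, α i = d := (hp.degree_eq_sum_deg_support hα).symm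
  refine (natDegree_prod_le _ _).trans ?_
  rw [← h2]
  refine Finset.sum_le_sum fun i _ => ?_
  refine natDegree_pow_le.trans ?_
  have := hY i
  nlinarith

section change

variable {M : Type} [Field M] [Algebra ℂ M] (L : IntermediateField ℂ M)

/-- the polynomial in the new variable -/
def rf (c : L) (N : ℕ) (f : L[X]) : L[X] := reflect N (taylor c f)

theorem aeval_rf (t : M) (c : L) (hc : t - (c : M) ≠ 0) (N : ℕ) (f : L[X])
    (hf : f.natDegree ≤ N) :
    aeval t f = (t - (c : M)) ^ N * aeval (t - (c : M))⁻¹ (rf L c N f) := by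
  let _ : Invertible (t - (c : M)) := invertibleOfNonzero hc
  have h1 := eval₂_reflect_mul_pow (algebraMap L M) (t - (c : M)) N (taylor c f) (by
    rw [natDegree_taylor]
    exact hf)
  rw [invOf_eq_inv] at h1
  have h3 : aeval (t - (c : M)) (X + C c : L[X]) = t := by
    rw [map_add, aeval_X, aeval_C]
    change t - (c : M) + (c : M) = t
    ring
  have h2 : aeval (t - (c : M)) (taylor c f) = aeval t f := by
    rw [taylor_apply, aeval_comp, h3]
  rw [← h2, aeval_def, ← h1, mul_comm]
  rfl

theorem natDegree_rf (c : L) (N : ℕ) (f : L[X]) (hf : f.natDegree ≤ N) :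
    (rf L c N f).natDegree ≤ N := by
  unfold rf
  refine natDegree_reflect_le.trans ?_
  rw [natDegree_taylor]
  exact max_le le_rfl hf

theorem coeff_rf (c : L) (N : ℕ) (f : L[X]) : (rf L c N f).coeff N = f.eval c := by
  unfold rf
  rw [coeff_reflect, revAt_le le_rfl, Nat.sub_self, taylor_coeff_zero]

theorem change_param (t : M) (ht : Transcendental L t) (τ : L) :
    Transcendental L (t - (τ : M))⁻¹ ∧ t - (τ : M) ≠ 0 := by
  have h1 : Transcendental L (t - (τ : M)) := by
    intro h
    apply ht
    have h2 : t = (t - (τ : M)) + algebraMap L M τ := by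
      change t = (t - (τ : M)) + (τ : M)
      ring
    rw [h2]
    exact h.add (isAlgebraic_algebraMap _)
  have h0 : t - (τ : M) ≠ 0 := by
    intro h
    rw [h] at h1
    exact h1 isAlgebraic_zero
  refine ⟨fun h => h1 ?_, h0⟩
  have := h.inv
  rwa [inv_inv] at this

end change

section main

variable {A : Matrix (Fin 3) (Fin 3) (MvPolynomial (Fin n) ℂ)}
  (hs : A.IsSymm) (hA : ∀ i j, (A i j).IsHomogeneous (1 + dg i + dg j))
  (hAn : ∀ V : Fin 3 → MvPolynomial (Fin n) ℂ, ∑ i, ∑ j, V i * A i j * V j = 0 → V = 0)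

include hs in
theorem q_eq {R : Type} [CommRing R] [Algebra ℂ R] (Y : Fin n → R) (w : Fin 3 → R) :
    q A Y w = qq (fun i j => MvPolynomial.aeval Y (A i j)) (w 0) (w 1) (w 2) := by
  have s10 : A 1 0 = A 0 1 := hs.apply 0 1
  have s20 : A 2 0 = A 0 2 := hs.apply 0 2
  have s21 : A 2 1 = A 1 2 := hs.apply 1 2
  unfold q qq
  simp only [Fin.sum_univ_three, s10, s20, s21]
  ring

include hA hAn in
/-- the projection of a generic point from the line is generic -/
theorem gen_Y {M : Type} [Field M] [Algebra ℂ M] (w : Fin 3 → M) (Y : Fin n → M)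
    (hforms : ∀ (e : ℕ) (H : MvPolynomial (Fin (n + 2)) ℂ), H.IsHomogeneous e →
      MvPolynomial.aeval (pt w Y) H = 0 → cub A ∣ H) (e : ℕ) (H : MvPolynomial (Fin n) ℂ)
    (hH : H.IsHomogeneous e) (h0 : MvPolynomial.aeval Y H = 0) : H = 0 := by
  by_contra hH0
  have h1 : MvPolynomial.aeval (pt w Y)
      (MvPolynomial.rename (fun l : Fin n => (l.succ.succ : Fin (n + 2))) H) = 0 := by
    rw [MvPolynomial.aeval_rename]
    have h2 : MvPolynomial.aeval (fun l => w 2 * Y l) H = w 2 ^ e * MvPolynomial.aeval Y H :=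
      aeval_smul_form hH (w 2) Y
    rw [h0, mul_zero] at h2
    exact h2
  obtain ⟨G, hG⟩ := hforms e _ (rename_hom hH) h1
  -- substitution
  let w' : Fin 3 → Polynomial (MvPolynomial (Fin n) ℂ) := ![X, 0, 1]
  let Y' : Fin n → Polynomial (MvPolynomial (Fin n) ℂ) := fun l => C (MvPolynomial.X l)
  have hval : ∀ p : MvPolynomial (Fin n) ℂ, MvPolynomial.aeval Y' p = C p := by
    intro p
    have h2 : (MvPolynomial.aeval Y' : MvPolynomial (Fin n) ℂ →ₐ[ℂ] _) =
        IsScalarTower.toAlgHom ℂ (MvPolynomial (Fin n) ℂ) (Polynomial (MvPolynomial (Fin n) ℂ)) := by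
      apply MvPolynomial.algHom_ext
      intro j
      rw [MvPolynomial.aeval_X]
      rfl
    rw [h2]
    rfl
  have h3 := congrArg (MvPolynomial.aeval (pt w' Y')) hG
  rw [map_mul, aeval_cub hA, MvPolynomial.aeval_rename] at h3
  have h4 : MvPolynomial.aeval (pt w' Y' ∘ fun l : Fin n => (l.succ.succ : Fin (n + 2))) H = C H := by
    have h5 : (pt w' Y' ∘ fun l : Fin n => (l.succ.succ : Fin (n + 2))) = Y' := by
      funext l
      change (1 : Polynomial (MvPolynomial (Fin n) ℂ)) * Y' l = Y' l
      rw [one_mul]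
    rw [h5, hval]
  have h6 : w' 2 * q A Y' w' = C (A 0 0) * X ^ 2 + C (A 0 2 + A 2 0) * X + C (A 2 2) := by
    unfold q
    simp only [Fin.sum_univ_three, hval]
    change (1 : Polynomial (MvPolynomial (Fin n) ℂ)) * (X * C (A 0 0) * X + X * C (A 0 1) * 0 +
      X * C (A 0 2) * 1 + (0 * C (A 1 0) * X + 0 * C (A 1 1) * 0 + 0 * C (A 1 2) * 1) +
      (1 * C (A 2 0) * X + 1 * C (A 2 1) * 0 + 1 * C (A 2 2) * 1)) = _
    rw [C_add]
    ring
  have hA0 : A 0 0 ≠ 0 := by
    intro h
    have h7 := hAn ![1, 0, 0] (by simp [Fin.sum_univ_three, h])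
    have h8 := congrFun h7 0
    simp at h8
  rw [h4, h6] at h3
  have hdeg : (C (A 0 0) * X ^ 2 + C (A 0 2 + A 2 0) * X + C (A 2 2) :
      Polynomial (MvPolynomial (Fin n) ℂ)).natDegree = 2 := natDegree_quadratic hA0
  have hG0 : MvPolynomial.aeval (pt w' Y') G ≠ 0 := by
    intro h
    rw [h, mul_zero] at h3
    exact hH0 (C_eq_zero.1 h3)
  have hq0 : (C (A 0 0) * X ^ 2 + C (A 0 2 + A 2 0) * X + C (A 2 2) :
      Polynomial (MvPolynomial (Fin n) ℂ)) ≠ 0 := by
    intro h
    rw [h, natDegree_zero] at hdeg
    omega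
  have h9 := natDegree_mul hq0 hG0
  rw [← h3, natDegree_C, hdeg] at h9
  omega

include hs hA hAn in
/-- **Descent.** -/
theorem descent (hn : 1 ≤ n)
    (hsm : ∀ z : Fin (n + 2) → ℂ, (∀ i, MvPolynomial.eval z (MvPolynomial.pderiv i (cub A)) = 0) →
      z = 0)
    {M : Type} [Field M] [Algebra ℂ M] (htr : Algebra.trdeg ℂ M = n) (L : IntermediateField ℂ M) :
    ∀ (m : ℕ) (t : M), Transcendental L t → ∀ (V W g : L[X]) (y z : Fin n → L),
      V.natDegree ≤ m + 1 → W.natDegree ≤ m + 1 → g.natDegree ≤ m → g ≠ 0 →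
      MvPolynomial.aeval (pt ![aeval t V, aeval t W, aeval t g]
        (fun l => t * (y l : M) + (z l : M))) (cub A) = 0 →
      Odd (Module.finrank (ratioField (pt ![aeval t V, aeval t W, aeval t g]
        (fun l => t * (y l : M) + (z l : M)))) M) → False := by
  classical
  -- vectors which are linear in the parameter
  have hlin : ∀ (t : M), Transcendental L t → ∀ x : Fin (n + 2) → M,
      (∃ u w : Fin (n + 2) → M, (∀ i, u i ∈ L) ∧ (∀ i, w i ∈ L) ∧ x = fun i => t * u i + w i) →
      MvPolynomial.aeval x (cub A) = 0 → Odd (Module.finrank (ratioField x) M) → False := by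
    rintro t ht x ⟨u, w, hu, hw, rfl⟩ hx hodd
    have hfin : FiniteDimensional (ratioField fun i => t * u i + w i) M :=
      Module.finite_of_finrank_pos hodd.pos
    have hgen := generic_of_finite hn _ (cub_hom hA) hsm htr _ hx hfin
    have h2 := Pool.Agent.Y201.LI.linear_param (r := n + 1) (cub_hom hA) (by norm_num) hsm L t ht
      u w hu hw hx hgen
    exact (Nat.not_even_iff_odd.2 hodd) (even_iff_two_dvd.2 h2)
  have hval1 : ∀ (t : M) (P : L[X]), P.natDegree ≤ 1 →
      aeval t P = t * (P.coeff 1 : M) + (P.coeff 0 : M) := by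
    intro t P hP
    rw [eq_X_add_C_of_natDegree_le_one hP]
    simp only [map_add, map_mul, aeval_C, aeval_X]
    simp [coeff_X, coeff_C]
    ring
  -- points of the form `(α(t), β(t), γ Y(t))` with `α`, `β` of degree one
  have hline : ∀ (t : M), Transcendental L t → ∀ (a b : L[X]) (γ : L) (y z : Fin n → L),
      a.natDegree ≤ 1 → b.natDegree ≤ 1 →
      MvPolynomial.aeval (pt ![aeval t a, aeval t b, (γ : M)]
        (fun l => t * (y l : M) + (z l : M))) (cub A) = 0 →
      Odd (Module.finrank (ratioField (pt ![aeval t a, aeval t b, (γ : M)]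
        (fun l => t * (y l : M) + (z l : M)))) M) → False := by
    intro t ht a b γ y z ha hb hx hodd
    refine hlin t ht _ ⟨Fin.cons (a.coeff 1 : M) (Fin.cons (b.coeff 1 : M) fun l =>
      (γ : M) * (y l : M)), Fin.cons (a.coeff 0 : M) (Fin.cons (b.coeff 0 : M) fun l =>
      (γ : M) * (z l : M)), ?_, ?_, ?_⟩ hx hodd
    · intro i
      refine Fin.cases ?_ (fun i => Fin.cases ?_ (fun l => ?_) i) i
      · exact (a.coeff 1).2
      · exact (b.coeff 1).2
      · exact mul_mem γ.2 (y l).2
    · intro i
      refine Fin.cases ?_ (fun i => Fin.cases ?_ (fun l => ?_) i) i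
      · exact (a.coeff 0).2
      · exact (b.coeff 0).2
      · exact mul_mem γ.2 (z l).2
    · funext i
      refine Fin.cases ?_ (fun i => Fin.cases ?_ (fun l => ?_) i) i
      · change aeval t a = t * (a.coeff 1 : M) + (a.coeff 0 : M)
        exact hval1 t a ha
      · change aeval t b = t * (b.coeff 1 : M) + (b.coeff 0 : M)
        exact hval1 t b hb
      · change (γ : M) * (t * (y l : M) + (z l : M)) =
          t * ((γ : M) * (y l : M)) + (γ : M) * (z l : M)
        ring
  have hsmul : ∀ (c : M) (w : Fin 3 → M) (Y : Fin n → M),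
      pt (fun i => c * w i) Y = fun i => c * pt w Y i := by
    intro c w Y
    funext i
    refine Fin.cases ?_ (fun i => Fin.cases ?_ (fun l => ?_) i) i
    · rfl
    · rfl
    · change c * w 2 * Y l = c * (w 2 * Y l)
      ring
  have hodd_smul : ∀ (c : M), c ≠ 0 → ∀ x y : Fin (n + 2) → M, (y = fun i => c * x i) →
      Odd (Module.finrank (ratioField y) M) → Odd (Module.finrank (ratioField x) M) := by
    intro c hc x y hxy h
    rw [hxy, ratio_smul c hc] at h
    exact h
  have hzero_smul : ∀ (c : M), c ≠ 0 → ∀ x : Fin (n + 2) → M,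
      MvPolynomial.aeval (fun i => c * x i) (cub A) = 0 → MvPolynomial.aeval x (cub A) = 0 := by
    intro c hc x h
    rw [aeval_smul_form (cub_hom hA)] at h
    exact (mul_eq_zero.1 h).resolve_left (pow_ne_zero 3 hc)
  intro m
  induction m with
  | zero =>
    intro t ht V W g y z hV hW hg hg0 hx hodd
    have h2 : aeval t g = ((g.coeff 0 : L) : M) := by
      rw [eq_C_of_natDegree_le_zero hg, aeval_C, coeff_C_zero]
      rfl
    rw [h2] at hx hodd
    exact hline t ht V W (g.coeff 0) y z (by omega) (by omega) hx hodd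
  | succ m ih =>
    -- the case of exact degree
    have main : ∀ (t : M), Transcendental L t → ∀ (V W g : L[X]) (y z : Fin n → L),
        V.natDegree ≤ m + 1 + 1 → W.natDegree ≤ m + 1 + 1 → g.natDegree = m + 1 →
        MvPolynomial.aeval (pt ![aeval t V, aeval t W, aeval t g]
          (fun l => t * (y l : M) + (z l : M))) (cub A) = 0 →
        Odd (Module.finrank (ratioField (pt ![aeval t V, aeval t W, aeval t g]
          (fun l => t * (y l : M) + (z l : M)))) M) → False := by
      intro t ht V W g y z hV hW hg hx hodd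
      have hinj : ∀ P : L[X], aeval t P = 0 → P = 0 := by
        intro P h
        by_contra hP
        exact ht ⟨P, hP, h⟩
      have hg0 : g ≠ 0 := by
        rintro rfl
        rw [natDegree_zero] at hg
        omega
      have hgt : aeval t g ≠ 0 := fun h => hg0 (hinj g h)
      obtain ⟨Yt, hYt⟩ : ∃ Yt : Fin n → M, Yt = fun l => t * (y l : M) + (z l : M) := ⟨_, rfl⟩
      rw [← hYt] at hx hodd
      have hfin : FiniteDimensional (ratioField (pt ![aeval t V, aeval t W, aeval t g] Yt)) M :=
        Module.finite_of_finrank_pos hodd.pos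
      have hforms := generic_of_finite hn _ (cub_hom hA) hsm htr _ hx hfin
      have hYgen := gen_Y hA hAn _ Yt hforms
      have hYj : Yt ⟨0, hn⟩ ≠ 0 := by
        intro h
        exact MvPolynomial.X_ne_zero (R := ℂ) (⟨0, hn⟩ : Fin n)
          (hYgen 1 _ (MvPolynomial.isHomogeneous_X ℂ _) (by rw [MvPolynomial.aeval_X, h]))
      have hq : q A Yt ![aeval t V, aeval t W, aeval t g] = 0 := by
        rw [aeval_cub hA] at hx
        exact (mul_eq_zero.1 hx).resolve_left hgt
      obtain ⟨c1, c2⟩ := parity hs hA hAn htr Yt hYgen ⟨0, hn⟩ hYj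
        ![aeval t V, aeval t W, aeval t g] hgt hq hodd
      -- the form over the polynomials
      obtain ⟨Y, hY⟩ : ∃ Y : Fin n → L[X], Y = fun l => X * C (y l) + C (z l) := ⟨_, rfl⟩
      obtain ⟨B, hB⟩ : ∃ B : Fin 3 → Fin 3 → L[X], B = fun i j => MvPolynomial.aeval Y (A i j) :=
        ⟨_, rfl⟩
      have hYe : (fun l => (aeval t : L[X] →ₐ[L] M) (Y l)) = Yt := by
        rw [hY, hYt]
        funext l
        simp only [map_add, map_mul, aeval_X, aeval_C]
        rfl
      have hBt : ∀ i j, aeval t (B i j) = MvPolynomial.aeval Yt (A i j) := by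
        intro i j
        rw [hB, ← hYe]
        exact MvPolynomial.comp_aeval_apply Y ((aeval t : L[X] →ₐ[L] M).restrictScalars ℂ) (A i j)
      have hqt : ∀ w0 w1 w2 : L[X], aeval t (qq B w0 w1 w2) =
          q A Yt ![aeval t w0, aeval t w1, aeval t w2] := by
        intro w0 w1 w2
        rw [q_eq hs]
        unfold qq
        simp only [map_add, map_mul, map_pow, map_ofNat, hBt, Matrix.cons_val_zero,
          Matrix.cons_val_one, Matrix.cons_val]
      have hYd : ∀ l, (Y l).natDegree ≤ 1 := by
        intro l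
        have e : Y l = X * C (y l) + C (z l) := by rw [hY]
        rw [e]
        refine natDegree_add_le_of_degree_le (natDegree_mul_le.trans ?_) ?_
        · rw [natDegree_C, natDegree_X]
        · rw [natDegree_C]
          omega
      have hd : ∀ i j, (B i j).natDegree ≤ 1 + dg i + dg j := by
        intro i j
        rw [hB]
        exact natDegree_aeval (hA i j) Y hYd
      have d00 : (B 0 0).natDegree ≤ 1 := hd 0 0
      have d01 : (B 0 1).natDegree ≤ 1 := hd 0 1
      have d11 : (B 1 1).natDegree ≤ 1 := hd 1 1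
      have d02 : (B 0 2).natDegree ≤ 2 := hd 0 2
      have d12 : (B 1 2).natDegree ≤ 2 := hd 1 2
      -- division
      obtain ⟨a, r, hVd, har, hrd⟩ := div_deg V g m hV hg
      obtain ⟨b, s, hWd, hbs, hsd⟩ := div_deg W g m hW hg
      have h0 : qq B (g * a + r) (g * b + s) g = 0 := by
        apply hinj
        rw [hqt, ← hVd, ← hWd, hq]
      obtain ⟨Φ, hΦ⟩ : ∃ Φ, Φ = qq B a b 1 := ⟨_, rfl⟩
      obtain ⟨bil, hbil⟩ : ∃ bil, bil = B 0 0 * r * a + B 0 1 * (r * b + s * a) + B 1 1 * s * b +
        B 0 2 * r + B 1 2 * s := ⟨_, rfl⟩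
      obtain ⟨G, hG⟩ : ∃ G, G = 2 * bil + g * Φ := ⟨_, rfl⟩
      obtain ⟨e1, e2⟩ := step_alg B r s a b g G Φ h0 hΦ (by rw [hG, hbil])
      have hmul : ∀ {p q : L[X]} {a b : ℕ}, p.natDegree ≤ a → q.natDegree ≤ b →
          (p * q).natDegree ≤ a + b := fun hp hq => natDegree_mul_le.trans (add_le_add hp hq)
      have hadd : ∀ {p q : L[X]} {a : ℕ}, p.natDegree ≤ a → q.natDegree ≤ a →
          (p + q).natDegree ≤ a := fun hp hq => natDegree_add_le_of_degree_le hp hq
      have hle : ∀ {p : L[X]} {a b : ℕ}, p.natDegree ≤ a → a ≤ b → p.natDegree ≤ b :=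
        fun hp hab => hp.trans hab
      have d2 : (2 : L[X]).natDegree ≤ 0 := (natDegree_ofNat 2).le
      have hd1 : (qq B r s 0).natDegree ≤ 2 * m + 1 := by
        have e : qq B r s 0 = B 0 0 * r * r + 2 * B 0 1 * r * s + B 1 1 * s * s := by
          unfold qq
          ring
        rw [e]
        refine hadd (hadd ?_ ?_) ?_
        · exact hle (hmul (hmul d00 hrd) hrd) (by omega)
        · exact hle (hmul (hmul (hmul d2 d01) hrd) hsd) (by omega)
        · exact hle (hmul (hmul d11 hsd) hsd) (by omega)
      have hGd : G.natDegree ≤ m := by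
        by_cases h : G = 0
        · rw [h, natDegree_zero]
          omega
        · have h1 : (g * G).natDegree = g.natDegree + G.natDegree := natDegree_mul hg0 h
          have h2 : (g * G).natDegree ≤ 2 * m + 1 := by
            have h3 : g * G = -(qq B r s 0) := by
              rw [e1, neg_neg]
            rw [h3, natDegree_neg]
            exact hd1
          omega
      have hbd : bil.natDegree ≤ m + 2 := by
        rw [hbil]
        refine hadd (hadd (hadd (hadd ?_ ?_) ?_) ?_) ?_
        · exact hle (hmul (hmul d00 hrd) har) (by omega)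
        · refine hle (hmul d01 (hadd (hmul hrd hbs) (hmul hsd har))) (by omega)
        · exact hle (hmul (hmul d11 hsd) hbs) (by omega)
        · exact hle (hmul d02 hrd) (by omega)
        · exact hle (hmul d12 hsd) (by omega)
      have hΦd : Φ.natDegree ≤ 1 := by
        by_cases h : Φ = 0
        · rw [h, natDegree_zero]
          omega
        · have h1 : (g * Φ).natDegree = g.natDegree + Φ.natDegree := natDegree_mul hg0 h
          have h2 : (g * Φ).natDegree ≤ m + 2 := by
            have h3 : g * Φ = G + -(2 * bil) := by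
              rw [hG]
              ring
            rw [h3]
            refine hadd (by omega) ?_
            rw [natDegree_neg]
            exact hle (hmul d2 hbd) (by omega)
          omega
      by_cases hl : aeval t r = 0 ∧ aeval t s = 0
      · -- the vector is linear
        have hr0 : r = 0 := hinj r hl.1
        have hs0 : s = 0 := hinj s hl.2
        rw [hr0, add_zero] at hVd
        rw [hs0, add_zero] at hWd
        have hxu : pt ![aeval t V, aeval t W, aeval t g] Yt =
            fun i => aeval t g * pt ![aeval t a, aeval t b, ((1 : L) : M)] Yt i := by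
          rw [← hsmul]
          congr 1
          funext i
          fin_cases i
          · change aeval t V = aeval t g * aeval t a
            rw [hVd, map_mul]
          · change aeval t W = aeval t g * aeval t b
            rw [hWd, map_mul]
          · change aeval t g = aeval t g * ((1 : L) : M)
            have : ((1 : L) : M) = 1 := rfl
            rw [this, mul_one]
        refine hline t ht a b 1 y z har hbs ?_ ?_
        · rw [← hYt]
          rw [hxu] at hx
          exact hzero_smul _ hgt _ hx
        · rw [← hYt]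
          exact hodd_smul _ hgt _ _ hxu hodd
      · -- the third point
        have hG0 : G ≠ 0 := by
          intro h
          have h1 : q A Yt ![aeval t r, aeval t s, aeval t (0 : L[X])] = 0 := by
            rw [← hqt, e1, h, mul_zero, neg_zero, map_zero]
          have h2 := c1 _ h1 (by
            change aeval t (0 : L[X]) = 0
            rw [map_zero])
          exact hl ⟨congrFun h2 0, congrFun h2 1⟩
        have hGt : aeval t G ≠ 0 := fun h => hG0 (hinj G h)
        have hq' : q A Yt ![aeval t (G * a - Φ * r), aeval t (G * b - Φ * s), aeval t G] = 0 := by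
          rw [← hqt, e2, map_zero]
        have hodd' := c2 _ hq' hGt
        refine ih t ht (G * a - Φ * r) (G * b - Φ * s) G y z ?_ ?_ hGd hG0 ?_ ?_
        · rw [sub_eq_add_neg]
          refine hadd (hle (hmul hGd har) (by omega)) ?_
          rw [natDegree_neg]
          exact hle (hmul hΦd hrd) (by omega)
        · rw [sub_eq_add_neg]
          refine hadd (hle (hmul hGd hbs) (by omega)) ?_
          rw [natDegree_neg]
          exact hle (hmul hΦd hsd) (by omega)
        · rw [← hYt, aeval_cub hA, hq', mul_zero]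
        · rw [← hYt]
          exact hodd'
    intro t ht V W g y z hV hW hg hg0 hx hodd
    -- change of the parameter
    have : Infinite L := Infinite.of_injective _ (algebraMap ℂ L).injective
    obtain ⟨c, hc⟩ : ∃ c : L, g.eval c ≠ 0 := by
      by_contra hcon
      push Not at hcon
      apply hg0
      apply Polynomial.funext
      intro c
      rw [hcon, eval_zero]
    obtain ⟨ht', hne⟩ := change_param L t ht c
    have hgd : (rf L c (m + 1) g).natDegree = m + 1 := by
      apply le_antisymm (natDegree_rf L c (m + 1) g hg)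
      apply le_natDegree_of_ne_zero
      rw [coeff_rf]
      exact hc
    have hxx : pt ![aeval t V, aeval t W, aeval t g] (fun l => t * (y l : M) + (z l : M)) =
        fun i => (t - (c : M)) ^ (m + 2) * pt ![aeval (t - (c : M))⁻¹ (rf L c (m + 2) V),
          aeval (t - (c : M))⁻¹ (rf L c (m + 2) W), aeval (t - (c : M))⁻¹ (rf L c (m + 1) g)]
          (fun l => (t - (c : M))⁻¹ * ((c * y l + z l : L) : M) + (y l : M)) i := by
      funext i
      refine Fin.cases ?_ (fun i => Fin.cases ?_ (fun l => ?_) i) i
      · exact aeval_rf L t c hne (m + 2) V hV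
      · exact aeval_rf L t c hne (m + 2) W hW
      · change aeval t g * (t * (y l : M) + (z l : M)) = (t - (c : M)) ^ (m + 2) *
          (aeval (t - (c : M))⁻¹ (rf L c (m + 1) g) *
            ((t - (c : M))⁻¹ * ((c * y l + z l : L) : M) + (y l : M)))
        rw [aeval_rf L t c hne (m + 1) g hg]
        have e3 : ((c * y l + z l : L) : M) = (c : M) * (y l : M) + (z l : M) := rfl
        rw [e3]
        field_simp
        ring
    refine main (t - (c : M))⁻¹ ht' (rf L c (m + 2) V) (rf L c (m + 2) W) (rf L c (m + 1) g)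
      (fun l => c * y l + z l) y (natDegree_rf L c (m + 2) V hV) (natDegree_rf L c (m + 2) W hW)
      hgd ?_ (hodd_smul _ (pow_ne_zero (m + 2) hne) _ _ hxx hodd)
    rw [hxx] at hx
    exact hzero_smul _ (pow_ne_zero (m + 2) hne) _ hx

end main

end

end Pool.Agent.H53.CL
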