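import Pool.Agent.H53.CL.Conc
import Pool.Agent.Q79.C3.Ani

/-! # Lines of the first type on smooth cubic hypersurfaces of dimension at least five -/

set_option autoImplicit false

namespace Pool.Agent.H53.CL

open MvPolynomial

noncomputable section

variable {n : ℕ}

/-- linear forms -/
theorem lin_eval {p : MvPolynomial (Fin n) ℂ} (hp : p.IsHomogeneous 1) :
    ∃ c : Fin n → ℂ, ∀ v : Fin n → ℂ, eval v p = ∑ l, v l * c l := by
  have h1 := hp.sum_X_mul_pderiv
  have h2 : ∀ l, ∃ c : ℂ, pderiv l p = C c := by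
    intro l
    have h3 : (pderiv l p).IsHomogeneous 0 := hp.pderiv
    refine ⟨_, totalDegree_eq_zero_iff_eq_C.1 ?_⟩
    exact Nat.le_zero.1 h3.totalDegree_le
  choose c hc using h2
  refine ⟨c, fun v => ?_⟩
  have h4 := congrArg (eval v) h1
  rw [one_smul, map_sum] at h4
  rw [← h4]
  refine Finset.sum_congr rfl fun l _ => ?_
  rw [map_mul, eval_X, hc, eval_C]

/-- a polynomial which vanishes on a line has derivative zero in its direction -/
theorem dir (p : MvPolynomial (Fin n) ℂ) (y h : Fin n → ℂ)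
    (h0 : ∀ s : ℂ, eval (fun l => y l + s * h l) p = 0) :
    ∑ l, eval y (pderiv l p) * h l = 0 := by
  have key : ∀ (p : MvPolynomial (Fin n) ℂ) (s : ℂ),
      (Polynomial.map (eval h) (phi y p)).eval s = eval (fun l => y l + s * h l) p := by
    intro p s
    induction p using MvPolynomial.induction_on with
    | C a => rw [phi_C, Polynomial.map_C, Polynomial.eval_C, eval_C, eval_C]
    | add f g hf hg => rw [map_add, Polynomial.map_add, Polynomial.eval_add, hf, hg, map_add]
    | mul_X f l hf =>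
      rw [map_mul, Polynomial.map_mul, Polynomial.eval_mul, hf, map_mul, eval_X]
      congr 1
      unfold phi
      rw [aeval_X, Polynomial.map_add, Polynomial.map_mul, Polynomial.map_C, Polynomial.map_X,
        Polynomial.map_C, Polynomial.eval_add, Polynomial.eval_mul, Polynomial.eval_C,
        Polynomial.eval_X, Polynomial.eval_C, eval_C, eval_X]
  have h1 : Polynomial.map (eval h) (phi y p) = 0 := by
    apply Polynomial.funext
    intro s
    rw [key, h0, Polynomial.eval_zero]
  have h2 := congrArg (fun P => Polynomial.coeff P 1) h1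
  simp only [Polynomial.coeff_map, phi_coeff_one, Polynomial.coeff_zero] at h2
  rw [map_sum] at h2
  rw [← h2]
  refine Finset.sum_congr rfl fun l _ => ?_
  rw [map_mul, eval_C, eval_X]

variable {A : Matrix (Fin 3) (Fin 3) (MvPolynomial (Fin n) ℂ)}
  (hs : A.IsSymm) (hA : ∀ i j, (A i j).IsHomogeneous (1 + dg i + dg j))

include hs hA in
/-- on a smooth cubic of dimension at least five the conics which touch the line everywhere do not all
vanish -/
theorem exists_dir (hn : 5 ≤ n)
    (hsm : ∀ z : Fin (n + 2) → ℂ, (∀ i, eval z (pderiv i (cub A)) = 0) → z = 0)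
    (u : Fin 3 → Fin n → ℂ)
    (hu0 : ∀ k, eval (u k) (A 0 0) = if k = 0 then 1 else 0)
    (hu1 : ∀ k, eval (u k) (A 0 1) = if k = 1 then 1 else 0)
    (hu2 : ∀ k, eval (u k) (A 1 1) = if k = 2 then 1 else 0) :
    ∃ h : Fin n → ℂ, eval h (A 0 0) = 0 ∧ eval h (A 0 1) = 0 ∧ eval h (A 1 1) = 0 ∧
      ∃ i j, eval h (A i j) ≠ 0 := by
  classical
  by_contra hcon
  push Not at hcon
  obtain ⟨a, ha⟩ := lin_eval (show (A 0 0).IsHomogeneous 1 from hA 0 0)
  obtain ⟨b, hb⟩ := lin_eval (show (A 0 1).IsHomogeneous 1 from hA 0 1)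
  obtain ⟨c, hc⟩ := lin_eval (show (A 1 1).IsHomogeneous 1 from hA 1 1)
  let P : Fin 3 ⊕ Fin 3 → MvPolynomial (Fin (n + 2)) ℂ := Sum.elim
    (![rename (fun l : Fin n => l.succ.succ) (A 0 0), rename (fun l : Fin n => l.succ.succ) (A 0 1),
      rename (fun l : Fin n => l.succ.succ) (A 1 1)])
    (fun k => ∑ l, C (u k l) * pderiv l.succ.succ (cub A))
  have hz0 : ∀ {d : ℕ} {p : MvPolynomial (Fin (n + 2)) ℂ}, p.IsHomogeneous (d + 1) →
      eval 0 p = 0 := by
    intro d p hp
    rw [eval_zero, constantCoeff_eq]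
    refine hp.coeff_eq_zero ?_
    rw [map_zero]
    omega
  obtain ⟨z, hz, hP⟩ := Pool.Agent.H952R2.Sextic.exists_common_zero (K := ℂ)
    (ι := Fin (n + 2)) (κ := Fin 3 ⊕ Fin 3) (by simp; omega) P (by
      rintro (k | k)
      · fin_cases k
        · exact hz0 (d := 0) (rename_hom (hA 0 0))
        · exact hz0 (d := 0) (rename_hom (hA 0 1))
        · exact hz0 (d := 0) (rename_hom (hA 1 1))
      · change eval 0 (∑ l, C (u k l) * pderiv l.succ.succ (cub A)) = 0
        rw [map_sum]
        refine Finset.sum_eq_zero fun l _ => ?_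
        have h1 : (pderiv (l.succ.succ : Fin (n + 2)) (cub A)).IsHomogeneous (1 + 1) :=
          (cub_hom hA).pderiv
        rw [map_mul, hz0 h1, mul_zero])
  set y : Fin n → ℂ := fun l => z l.succ.succ with hy
  set w : Fin 3 → ℂ := ![z 0, z 1, 1] with hw
  have hzpt : z = pt w y := by
    funext i
    refine Fin.cases ?_ (fun i => Fin.cases ?_ (fun l => ?_) i) i
    · rfl
    · rfl
    · change z l.succ.succ = 1 * z l.succ.succ
      rw [one_mul]
  have hren : ∀ p : MvPolynomial (Fin n) ℂ,
      eval z (rename (fun l : Fin n => (l.succ.succ : Fin (n + 2))) p) = eval y p := by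
    intro p
    rw [eval_rename]
    rfl
  have ha0 : eval y (A 0 0) = 0 := by
    rw [← hren]
    exact hP (Sum.inl 0)
  have hb0 : eval y (A 0 1) = 0 := by
    rw [← hren]
    exact hP (Sum.inl 1)
  have hc0 : eval y (A 1 1) = 0 := by
    rw [← hren]
    exact hP (Sum.inl 2)
  have hAy : ∀ i j, eval y (A i j) = 0 := hcon y ha0 hb0 hc0
  -- the derivatives in the directions `u k`
  have hDu : ∀ k, ∑ l, u k l * eval z (pderiv l.succ.succ (cub A)) = 0 := by
    intro k
    have h1 := hP (Sum.inr k)
    change eval z (∑ l, C (u k l) * pderiv l.succ.succ (cub A)) = 0 at h1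
    rw [map_sum] at h1
    rw [← h1]
    refine Finset.sum_congr rfl fun l _ => ?_
    rw [map_mul, eval_C]
  -- the derivatives in the directions of the linear space
  have hDh : ∀ h : Fin n → ℂ, eval h (A 0 0) = 0 → eval h (A 0 1) = 0 → eval h (A 1 1) = 0 →
      ∑ l, h l * eval z (pderiv l.succ.succ (cub A)) = 0 := by
    intro h h00 h01 h11
    have h1 : ∀ i j, ∑ l, eval y (pderiv l (A i j)) * h l = 0 := by
      intro i j
      refine dir (A i j) y h fun s => ?_
      refine hcon _ ?_ ?_ ?_ i j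
      · rw [ha]
        rw [ha] at h00 ha0
        have : ∑ l, (y l + s * h l) * a l = ∑ l, y l * a l + s * ∑ l, h l * a l := by
          rw [Finset.mul_sum, ← Finset.sum_add_distrib]
          exact Finset.sum_congr rfl fun l _ => by ring
        rw [this, ha0, h00, mul_zero, add_zero]
      · rw [hb]
        rw [hb] at h01 hb0
        have : ∑ l, (y l + s * h l) * b l = ∑ l, y l * b l + s * ∑ l, h l * b l := by
          rw [Finset.mul_sum, ← Finset.sum_add_distrib]
          exact Finset.sum_congr rfl fun l _ => by ring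
        rw [this, hb0, h01, mul_zero, add_zero]
      · rw [hc]
        rw [hc] at h11 hc0
        have : ∑ l, (y l + s * h l) * c l = ∑ l, y l * c l + s * ∑ l, h l * c l := by
          rw [Finset.mul_sum, ← Finset.sum_add_distrib]
          exact Finset.sum_congr rfl fun l _ => by ring
        rw [this, hc0, h11, mul_zero, add_zero]
    have h2 : ∀ l, eval z (pderiv l.succ.succ (cub A)) =
        ∑ i, ∑ j, w i * eval y (pderiv l (A i j)) * w j := by
      intro l
      rw [hzpt]
      exact eval_pderiv_succ hA w y l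
    have h3 : ∑ l, h l * eval z (pderiv l.succ.succ (cub A)) =
        ∑ i, ∑ j, w i * (∑ l, eval y (pderiv l (A i j)) * h l) * w j := by
      simp only [h2]
      simp only [Fin.sum_univ_three, mul_add, add_mul, Finset.sum_add_distrib, Finset.mul_sum,
        Finset.sum_mul]
      simp only [← Finset.sum_add_distrib]
      refine Finset.sum_congr rfl fun l _ => ?_
      ring
    rw [h3]
    refine Finset.sum_eq_zero fun i _ => Finset.sum_eq_zero fun j _ => ?_
    rw [h1, mul_zero, zero_mul]
  -- all derivatives vanish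
  have hall : ∀ v : Fin n → ℂ, ∑ l, v l * eval z (pderiv l.succ.succ (cub A)) = 0 := by
    intro v
    have e0 := hDh (fun l => v l - (eval v (A 0 0) * u 0 l + eval v (A 0 1) * u 1 l +
      eval v (A 1 1) * u 2 l))
    have f0 := hu0 0
    have f1 := hu0 1
    have f2 := hu0 2
    have g0 := hu1 0
    have g1 := hu1 1
    have g2 := hu1 2
    have k0 := hu2 0
    have k1 := hu2 1
    have k2 := hu2 2
    rw [ha] at f0 f1 f2
    rw [hb] at g0 g1 g2
    rw [hc] at k0 k1 k2
    have expand : ∀ (e : Fin n → ℂ) (α β γ : ℂ), ∑ l, (v l - (α * u 0 l + β * u 1 l + γ * u 2 l)) * e l =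
        ∑ l, v l * e l - (α * ∑ l, u 0 l * e l + β * ∑ l, u 1 l * e l + γ * ∑ l, u 2 l * e l) := by
      intro e α β γ
      rw [Finset.mul_sum, Finset.mul_sum, Finset.mul_sum, ← Finset.sum_add_distrib,
        ← Finset.sum_add_distrib, ← Finset.sum_sub_distrib]
      exact Finset.sum_congr rfl fun l _ => by ring
    have e1 := e0 (by
      rw [ha, expand, f0, f1, f2, ha v]
      simp)
      (by
      rw [hb, expand, g0, g1, g2, hb v]
      simp)
      (by
      rw [hc, expand, k0, k1, k2, hc v]
      simp)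
    rw [expand, hDu, hDu, hDu] at e1
    linear_combination e1
  apply hz
  apply hsm
  intro i
  refine Fin.cases ?_ (fun i => Fin.cases ?_ (fun l => ?_) i) i
  · rw [hzpt, eval_pderiv_zero hs hA]
    rw [Finset.sum_eq_zero fun j _ => by rw [hAy, zero_mul], mul_zero]
  · change eval z (pderiv 1 (cub A)) = 0
    rw [hzpt, eval_pderiv_one hs hA]
    rw [Finset.sum_eq_zero fun j _ => by rw [hAy, zero_mul], mul_zero]
  · have h1 := hall (Pi.single l 1)
    rw [Finset.sum_eq_single l] at h1
    · rwa [Pi.single_eq_same, one_mul] at h1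
    · intro j _ hj
      rw [Pi.single_eq_of_ne hj, zero_mul]
    · intro h
      exact absurd (Finset.mem_univ _) h

include hs hA in
/-- **Lines of the first type.** On a smooth cubic hypersurface of dimension at least five there is a
plane through each line of the first type which meets the cubic in the line and in a double line. -/
theorem exists_rank_one (hn : 5 ≤ n)
    (hsm : ∀ z : Fin (n + 2) → ℂ, (∀ i, eval z (pderiv i (cub A)) = 0) → z = 0)
    (h1 : ∀ s : Fin 3 → ℂ, ∃ y : Fin n → ℂ, eval y (A 0 0) = s 0 ∧ eval y (A 0 1) = s 1 ∧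
      eval y (A 1 1) = s 2) :
    ∃ η : Fin n → ℂ, (∃ i j, eval η (A i j) ≠ 0) ∧
      ∀ i j k l : Fin 3, eval η (A i k) * eval η (A j l) = eval η (A i l) * eval η (A j k) := by
  classical
  choose u hu using fun k : Fin 3 => h1 (Pi.single k 1)
  have hu0 : ∀ k, eval (u k) (A 0 0) = if k = 0 then 1 else 0 := by
    intro k
    rw [(hu k).1]
    fin_cases k <;> simp
  have hu1 : ∀ k, eval (u k) (A 0 1) = if k = 1 then 1 else 0 := by
    intro k
    rw [(hu k).2.1]
    fin_cases k <;> simp
  have hu2 : ∀ k, eval (u k) (A 1 1) = if k = 2 then 1 else 0 := by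
    intro k
    rw [(hu k).2.2]
    fin_cases k <;> simp
  obtain ⟨h, h00, h01, h11, i0, j0, hij⟩ := exists_dir hs hA hn hsm u hu0 hu1 hu2
  obtain ⟨a, ha⟩ := lin_eval (show (A 0 0).IsHomogeneous 1 from hA 0 0)
  obtain ⟨b, hb⟩ := lin_eval (show (A 0 1).IsHomogeneous 1 from hA 0 1)
  obtain ⟨c, hc⟩ := lin_eval (show (A 1 1).IsHomogeneous 1 from hA 1 1)
  let A' : Matrix (Fin 3) (Fin 3) (MvPolynomial (Fin 4) ℂ) := fun i j =>
    aeval (fun l => X 0 * C (u 0 l) + X 1 * C (u 1 l) + X 2 * C (u 2 l) + X 3 * C (h l) :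
      Fin n → MvPolynomial (Fin 4) ℂ) (A i j)
  have hA' : ∀ (σ : Fin 4 → ℂ) (i j : Fin 3), eval σ (A' i j) =
      eval (fun l => σ 0 * u 0 l + σ 1 * u 1 l + σ 2 * u 2 l + σ 3 * h l) (A i j) := by
    intro σ i j
    have e1 : ∀ p : MvPolynomial (Fin 4) ℂ, eval σ p = aeval σ p := fun p => ev_ae σ p
    rw [e1, ev_ae]
    change aeval σ (aeval _ (A i j)) = _
    rw [comp_aeval_apply]
    congr 2
    funext l
    simp only [map_add, map_mul, aeval_X, aeval_C]
    rfl
  obtain ⟨σ, hσ0, hσ⟩ := Pool.Agent.Q79.C3.eta A' (by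
    refine Matrix.IsSymm.ext fun i j => ?_
    change aeval _ (A j i) = aeval _ (A i j)
    rw [hs.apply]) (by
    intro i j
    rw [hA']
    have e : (fun l => (0 : Fin 4 → ℂ) 0 * u 0 l + (0 : Fin 4 → ℂ) 1 * u 1 l +
        (0 : Fin 4 → ℂ) 2 * u 2 l + (0 : Fin 4 → ℂ) 3 * h l) = 0 := by
      funext l
      simp
    rw [e, eval_zero, constantCoeff_eq]
    refine (hA i j).coeff_eq_zero ?_
    rw [map_zero]
    omega)
  refine ⟨fun l => σ 0 * u 0 l + σ 1 * u 1 l + σ 2 * u 2 l + σ 3 * h l, ?_, fun i j k l => ?_⟩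
  · by_contra hcon
    push Not at hcon
    have expand : ∀ (e : Fin n → ℂ),
        ∑ l, (σ 0 * u 0 l + σ 1 * u 1 l + σ 2 * u 2 l + σ 3 * h l) * e l =
        σ 0 * ∑ l, u 0 l * e l + σ 1 * ∑ l, u 1 l * e l + σ 2 * ∑ l, u 2 l * e l +
          σ 3 * ∑ l, h l * e l := by
      intro e
      rw [Finset.mul_sum, Finset.mul_sum, Finset.mul_sum, Finset.mul_sum,
        ← Finset.sum_add_distrib, ← Finset.sum_add_distrib, ← Finset.sum_add_distrib]
      exact Finset.sum_congr rfl fun l _ => by ring
    have f0 := hu0 0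
    have f1 := hu0 1
    have f2 := hu0 2
    have g0 := hu1 0
    have g1 := hu1 1
    have g2 := hu1 2
    have k0 := hu2 0
    have k1 := hu2 1
    have k2 := hu2 2
    rw [ha] at f0 f1 f2 h00
    rw [hb] at g0 g1 g2 h01
    rw [hc] at k0 k1 k2 h11
    have s0 : σ 0 = 0 := by
      have := hcon 0 0
      rw [ha, expand, f0, f1, f2, h00] at this
      simpa using this
    have s1 : σ 1 = 0 := by
      have := hcon 0 1
      rw [hb, expand, g0, g1, g2, h01] at this
      simpa using this
    have s2 : σ 2 = 0 := by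
      have := hcon 1 1
      rw [hc, expand, k0, k1, k2, h11] at this
      simpa using this
    have s3 : σ 3 ≠ 0 := by
      intro s3
      apply hσ0
      funext k
      fin_cases k
      · exact s0
      · exact s1
      · exact s2
      · exact s3
    have h2 := hcon i0 j0
    have e : (fun l => σ 0 * u 0 l + σ 1 * u 1 l + σ 2 * u 2 l + σ 3 * h l) =
        fun l => σ 3 * h l := by
      funext l
      rw [s0, s1, s2]
      ring
    rw [e, ev_ae] at h2
    have h3 : aeval (fun l => σ 3 * h l) (A i0 j0) =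
        σ 3 ^ (1 + dg i0 + dg j0) * aeval h (A i0 j0) :=
      Pool.Agent.TH314.PD.aeval_smul_form (hA i0 j0) (σ 3) h
    rw [h3, ← ev_ae] at h2
    exact (mul_ne_zero (pow_ne_zero _ s3) hij) h2
  · have h2 := hσ i j k l
    rw [hA', hA', hA', hA'] at h2
    exact h2

end

end Pool.Agent.H53.CL
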